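import Mathlib

set_option autoImplicit false
set_option linter.unusedSectionVars false

namespace Pool.Agent.N206.HF

open Finset

section pairs

variable {Ω ι : Type} [Fintype Ω] [DecidableEq Ω] [DecidableEq ι]

/-- the pairs are disjoint -/
def Dj (a b : ι → Ω) (i j : ι) : Prop := a i ≠ a j ∧ a i ≠ b j ∧ b i ≠ a j ∧ b i ≠ b j

open Classical in
theorem count_avoid (a b : ι → Ω) (Z : Finset ι) (hZ : ∀ i ∈ Z, ∀ j ∈ Z, i ≠ j → Dj a b i j) :
    4 ^ Z.card * (Finset.univ.filter fun T : Finset Ω => ∀ i ∈ Z, ¬ (a i ∈ T ∧ b i ∈ T)).card ≤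
      3 ^ Z.card * 2 ^ Fintype.card Ω := by
  induction Z using Finset.induction_on with
  | empty => simp
  | insert j Z hj ih =>
    have ih' := ih fun i hi i' hi' hne => hZ i (Finset.mem_insert_of_mem hi) i' (Finset.mem_insert_of_mem hi') hne
    set F := Finset.univ.filter fun T : Finset Ω => ∀ i ∈ Z, ¬ (a i ∈ T ∧ b i ∈ T) with hF
    have h1 : (Finset.univ.filter fun T : Finset Ω => ∀ i ∈ insert j Z, ¬ (a i ∈ T ∧ b i ∈ T)) =
        F.filter fun T => ¬ (a j ∈ T ∧ b j ∈ T) := by
      ext T
      simp only [hF, Finset.mem_filter, Finset.mem_univ, true_and, Finset.forall_mem_insert]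
      tauto
    rw [h1, Finset.card_insert_of_notMem hj]
    have h2 : (F.filter fun T => (a j ∈ T ∧ b j ∈ T)).card +
        (F.filter fun T => ¬ (a j ∈ T ∧ b j ∈ T)).card = F.card :=
      Finset.card_filter_add_card_filter_not _
    have h3 : F.card ≤ (F.filter fun T => (a j ∈ T ∧ b j ∈ T)).card * 4 := by
      have h4 : ((F.filter fun T => (a j ∈ T ∧ b j ∈ T)) ×ˢ (Finset.univ : Finset (Bool × Bool))).card =
          (F.filter fun T => (a j ∈ T ∧ b j ∈ T)).card * 4 := by
        rw [Finset.card_product]
        rfl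
      rw [← h4]
      refine Finset.card_le_card_of_injOn
        (fun T => (insert (a j) (insert (b j) T), (decide (a j ∈ T), decide (b j ∈ T)))) ?_ ?_
      · intro T hT
        have hT' : ∀ i ∈ Z, ¬ (a i ∈ T ∧ b i ∈ T) := (Finset.mem_filter.1 (Finset.mem_coe.1 hT)).2
        refine Finset.mem_coe.2 (Finset.mem_product.2 ⟨Finset.mem_filter.2 ⟨?_, by simp⟩, Finset.mem_univ _⟩)
        refine Finset.mem_filter.2 ⟨Finset.mem_univ _, fun i hi => ?_⟩
        have hne : i ≠ j := by rintro rfl; exact hj hi
        obtain ⟨d1, d2, d3, d4⟩ := hZ i (Finset.mem_insert_of_mem hi) j (Finset.mem_insert_self _ _) hne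
        simp only [Finset.mem_insert, d1, d2, d3, d4, false_or]
        exact hT' i hi
      · intro T hT T' hT' heq
        simp only [Prod.mk.injEq, decide_eq_decide] at heq
        obtain ⟨e1, e2, e3⟩ := heq
        ext v
        by_cases hva : v = a j
        · subst hva; exact e2
        · by_cases hvb : v = b j
          · subst hvb; exact e3
          · have := Finset.ext_iff.1 e1 v
            simp only [Finset.mem_insert, hva, hvb, false_or] at this
            exact this
    have h5 : 4 * (F.filter fun T => ¬ (a j ∈ T ∧ b j ∈ T)).card ≤ 3 * F.card := by omega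
    calc 4 ^ (Z.card + 1) * (F.filter fun T => ¬ (a j ∈ T ∧ b j ∈ T)).card
        = 4 ^ Z.card * (4 * (F.filter fun T => ¬ (a j ∈ T ∧ b j ∈ T)).card) := by ring
      _ ≤ 4 ^ Z.card * (3 * F.card) := Nat.mul_le_mul_left _ h5
      _ = 3 * (4 ^ Z.card * F.card) := by ring
      _ ≤ 3 * (3 ^ Z.card * 2 ^ Fintype.card Ω) := Nat.mul_le_mul_left _ ih'
      _ = _ := by ring

theorem exists_disjoint [Fintype ι] (a b : ι → Ω) (ha : ∀ v, (Finset.univ.filter fun z => a z = v).card ≤ 3)
    (hb : ∀ v, (Finset.univ.filter fun z => b z = v).card ≤ 3) :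
    ∃ Z : Finset ι, (∀ i ∈ Z, ∀ j ∈ Z, i ≠ j → Dj a b i j) ∧ Fintype.card ι ≤ 12 * Z.card := by
  classical
  obtain ⟨Z, hZ, hmax⟩ := Finset.exists_max_image
    ((Finset.univ : Finset (Finset ι)).filter fun Z => ∀ i ∈ Z, ∀ j ∈ Z, i ≠ j → Dj a b i j) Finset.card
    ⟨∅, by simp⟩
  have hZ' := (Finset.mem_filter.1 hZ).2
  refine ⟨Z, hZ', ?_⟩
  have hcov : (Finset.univ : Finset ι) ⊆ Z.biUnion fun z =>
      ((Finset.univ.filter fun z' => a z' = a z) ∪ (Finset.univ.filter fun z' => a z' = b z)) ∪
      ((Finset.univ.filter fun z' => b z' = a z) ∪ (Finset.univ.filter fun z' => b z' = b z)) := by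
    intro w _
    by_contra hcon
    have h1 : ∀ z ∈ Z, Dj a b w z := by
      intro z hz
      by_contra hd
      apply hcon
      refine Finset.mem_biUnion.2 ⟨z, hz, ?_⟩
      simp only [Finset.mem_union, Finset.mem_filter, Finset.mem_univ, true_and]
      unfold Dj at hd
      tauto
    have hw : w ∉ Z := by
      intro hw
      exact (h1 w hw).1 rfl
    have h2 := hmax (insert w Z) (Finset.mem_filter.2 ⟨Finset.mem_univ _, by
      intro i hi j hj hne
      rcases Finset.mem_insert.1 hi with hi' | hi'
      · rcases Finset.mem_insert.1 hj with hj' | hj'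
        · exact absurd (hi'.trans hj'.symm) hne
        · rw [hi']
          exact h1 j hj'
      · rcases Finset.mem_insert.1 hj with hj' | hj'
        · rw [hj']
          obtain ⟨d1, d2, d3, d4⟩ := h1 i hi'
          exact ⟨d1.symm, d3.symm, d2.symm, d4.symm⟩
        · exact hZ' i hi' j hj' hne⟩)
    rw [Finset.card_insert_of_notMem hw] at h2
    omega
  calc Fintype.card ι = (Finset.univ : Finset ι).card := rfl
    _ ≤ _ := Finset.card_le_card hcov
    _ ≤ Z.card * 12 := by
      refine Finset.card_biUnion_le_card_mul _ _ _ fun z _ => ?_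
      refine (Finset.card_union_le _ _).trans ?_
      have h1 := Finset.card_union_le (Finset.univ.filter fun z' => a z' = a z) (Finset.univ.filter fun z' => a z' = b z)
      have h2 := Finset.card_union_le (Finset.univ.filter fun z' => b z' = a z) (Finset.univ.filter fun z' => b z' = b z)
      have := ha (a z)
      have := ha (b z)
      have := hb (a z)
      have := hb (b z)
      omega
    _ = _ := by ring

open Classical in
theorem count_avoid' [Fintype ι] (a b : ι → Ω) (ha : ∀ v, (Finset.univ.filter fun z => a z = v).card ≤ 3)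
    (hb : ∀ v, (Finset.univ.filter fun z => b z = v).card ≤ 3) :
    4 ^ (Fintype.card ι / 12) * (Finset.univ.filter fun T : Finset Ω => ∀ i, ¬ (a i ∈ T ∧ b i ∈ T)).card ≤
      3 ^ (Fintype.card ι / 12) * 2 ^ Fintype.card Ω := by
  obtain ⟨Z, hZ, hc⟩ := exists_disjoint a b ha hb
  obtain ⟨Z', hZ', hc'⟩ := Finset.exists_subset_card_eq (s := Z) (n := Fintype.card ι / 12) (by omega)
  have := count_avoid a b Z' fun i hi j hj => hZ i (hZ' hi) j (hZ' hj)
  rw [hc'] at this
  refine le_trans (Nat.mul_le_mul_left _ (Finset.card_le_card ?_)) this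
  intro T hT
  simp only [Finset.mem_filter, Finset.mem_univ, true_and] at hT ⊢
  exact fun i _ => hT i

end pairs

section orb

variable (A : Type) [CommGroup A]

/-- the multiset of the coordinates -/
def ms (p : A × A × A) : Multiset A := {p.1, p.2.1, p.2.2}

/-- triples up to scaling and permutations -/
def orbSetoid : Setoid (A × A × A) where
  r p q := ∃ g : A, (ms A p).map (fun x => g * x) = ms A q
  iseqv := by
    refine ⟨fun p => ⟨1, by simp⟩, ?_, ?_⟩
    · rintro p q ⟨g, hg⟩
      refine ⟨g⁻¹, ?_⟩
      rw [← hg, Multiset.map_map]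
      simp
    · rintro p q s ⟨g, hg⟩ ⟨h, hh⟩
      refine ⟨h * g, ?_⟩
      rw [← hh, ← hg, Multiset.map_map]
      congr 1
      funext x
      simp [mul_assoc]

/-- the type of the orbits -/
def Orb : Type := Quotient (orbSetoid A)

variable {A}

/-- the orbit of a triple -/
def o (x y z : A) : Orb A := Quotient.mk (orbSetoid A) (x, y, z)

theorem o_eq {x y z x' y' z' : A} : o x y z = o x' y' z' ↔
    ∃ g : A, ({g * x, g * y, g * z} : Multiset A) = {x', y', z'} := by
  constructor
  · intro h
    obtain ⟨g, hg⟩ := Quotient.exact h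
    exact ⟨g, by simpa [ms] using hg⟩
  · rintro ⟨g, hg⟩
    exact Quotient.sound ⟨g, by simpa [ms] using hg⟩

theorem o_swap (x y z : A) : o x y z = o y x z := by
  rw [o_eq]
  refine ⟨1, ?_⟩
  simp only [one_mul]
  exact Multiset.cons_swap _ _ _

theorem o_swap' (x y z : A) : o x y z = o x z y := by
  rw [o_eq]
  refine ⟨1, ?_⟩
  simp only [one_mul]
  exact congrArg (fun s => x ::ₘ s) (Multiset.cons_swap _ _ _)

theorem o_smul (g x y z : A) : o (g * x) (g * y) (g * z) = o x y z := by
  symm
  rw [o_eq]
  exact ⟨g, rfl⟩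

theorem o_ind {P : Orb A → Prop} (h : ∀ x y z, P (o x y z)) (v : Orb A) : P v := by
  rcases v with ⟨x, y, z⟩
  exact h x y z

noncomputable instance [Finite A] : Fintype (Orb A) := by
  classical
  have := Fintype.ofFinite A
  have : Finite (Orb A) := Quotient.finite _
  exact Fintype.ofFinite _

noncomputable instance : DecidableEq (Orb A) := Classical.decEq _

open Classical in
theorem fiber_le [Fintype A] (x y : A) (v : Orb A) : (Finset.univ.filter fun z => o x y z = v).card ≤ 3 := by
  by_cases h : ∃ z, o x y z = v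
  · obtain ⟨z, rfl⟩ := h
    have hsub : (Finset.univ.filter fun z' => o x y z' = o x y z) ⊆
        ({1, x * y⁻¹, x * z⁻¹} : Finset A).image (fun g => g ^ 3 * z) := by
      intro z' hz'
      have h1 := (Finset.mem_filter.1 hz').2
      obtain ⟨g, hg⟩ := o_eq.1 h1.symm
      refine Finset.mem_image.2 ⟨g, ?_, ?_⟩
      · have hx : x ∈ ({x, y, z'} : Multiset A) := by simp
        rw [← hg] at hx
        simp only [Multiset.insert_eq_cons, Multiset.mem_cons, Multiset.mem_singleton] at hx
        simp only [Finset.mem_insert, Finset.mem_singleton]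
        rcases hx with hx | hx | hx
        · left
          exact (mul_eq_right.1 hx.symm)
        · right; left
          rw [hx, mul_inv_cancel_right]
        · right; right
          rw [hx, mul_inv_cancel_right]
      · have hp := congrArg Multiset.prod hg
        simp only [Multiset.insert_eq_cons, Multiset.prod_cons, Multiset.prod_singleton] at hp
        have h2 : (x * y) * (g ^ 3 * z) = (x * y) * z' := by
          calc (x * y) * (g ^ 3 * z) = g * x * (g * y * (g * z)) := by
                rw [pow_succ, pow_two]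
                simp only [mul_comm, mul_left_comm]
            _ = x * (y * z') := hp
            _ = _ := (mul_assoc _ _ _).symm
        exact mul_left_cancel h2
    refine (Finset.card_le_card hsub).trans (Finset.card_image_le.trans ?_)
    exact Finset.card_le_three
  · have : (Finset.univ.filter fun z => o x y z = v) = ∅ := by
      refine Finset.filter_eq_empty_iff.2 fun z _ hz => h ⟨z, hz⟩
    rw [this]
    simp

open Classical in
theorem fiber_le' [Fintype A] (w t : A) (v : Orb A) : (Finset.univ.filter fun z => o z w t = v).card ≤ 3 := by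
  have : (fun z => o z w t = v) = fun z => o w t z = v := by
    funext z
    rw [o_swap, o_swap']
  simp only [this]
  exact fiber_le w t v

open Classical in
theorem fiber_eps [Fintype A] (ε x y : A) (v : Orb A) :
    (Finset.univ.filter fun z => o x y (ε * z) = v).card ≤ 3 := by
  refine le_trans (Finset.card_le_card_of_injOn (fun z => ε * z) ?_ ?_) (fiber_le x y v)
  · intro z hz
    have := (Finset.mem_filter.1 (Finset.mem_coe.1 hz)).2
    exact Finset.mem_coe.2 (Finset.mem_filter.2 ⟨Finset.mem_univ _, this⟩)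
  · intro z _ z' _ h
    exact mul_left_cancel h

/-- associativity is guaranteed -/
def Good (ε : A) (T : Finset (Orb A)) : Prop :=
  ∀ x y w t : A, ∃ z : A, o x y (ε * z) ∈ T ∧ o z w (ε * t) ∈ T

/-- `1 - 1` is everything -/
def Full (ε : A) (T : Finset (Orb A)) : Prop := ∀ z : A, o 1 ε z ∈ T

open Classical in
theorem bad_card [Fintype A] (ε : A) :
    4 ^ (Fintype.card A / 12) * (Finset.univ.filter fun T : Finset (Orb A) => ¬ Good ε T).card ≤
      (Fintype.card A) ^ 4 * (3 ^ (Fintype.card A / 12) * 2 ^ Fintype.card (Orb A)) := by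
  have h1 : (Finset.univ.filter fun T : Finset (Orb A) => ¬ Good ε T) ⊆
      (Finset.univ : Finset (A × A × A × A)).biUnion fun q =>
        Finset.univ.filter fun T : Finset (Orb A) =>
          ∀ z, ¬ (o q.1 q.2.1 (ε * z) ∈ T ∧ o z q.2.2.1 (ε * q.2.2.2) ∈ T) := by
    intro T hT
    have h := (Finset.mem_filter.1 hT).2
    unfold Good at h
    push Not at h
    obtain ⟨x, y, w, t, h⟩ := h
    refine Finset.mem_biUnion.2 ⟨(x, y, w, t), Finset.mem_univ _, Finset.mem_filter.2 ⟨Finset.mem_univ _, ?_⟩⟩
    intro z hz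
    exact h z hz.1 hz.2
  have hcard : (Finset.univ : Finset (A × A × A × A)).card = (Fintype.card A) ^ 4 := by
    rw [Finset.card_univ]
    simp only [Fintype.card_prod]
    ring
  calc 4 ^ (Fintype.card A / 12) * (Finset.univ.filter fun T : Finset (Orb A) => ¬ Good ε T).card
      ≤ 4 ^ (Fintype.card A / 12) * ∑ q : A × A × A × A, (Finset.univ.filter fun T : Finset (Orb A) =>
          ∀ z, ¬ (o q.1 q.2.1 (ε * z) ∈ T ∧ o z q.2.2.1 (ε * q.2.2.2) ∈ T)).card :=
        Nat.mul_le_mul_left _ ((Finset.card_le_card h1).trans Finset.card_biUnion_le)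
    _ = ∑ q : A × A × A × A, 4 ^ (Fintype.card A / 12) * (Finset.univ.filter fun T : Finset (Orb A) =>
          ∀ z, ¬ (o q.1 q.2.1 (ε * z) ∈ T ∧ o z q.2.2.1 (ε * q.2.2.2) ∈ T)).card := Finset.mul_sum _ _ _
    _ ≤ ∑ q : A × A × A × A, 3 ^ (Fintype.card A / 12) * 2 ^ Fintype.card (Orb A) := by
        refine Finset.sum_le_sum fun q _ => ?_
        exact count_avoid' (fun z => o q.1 q.2.1 (ε * z)) (fun z => o z q.2.2.1 (ε * q.2.2.2))
          (fun v => fiber_eps ε _ _ v) (fun v => fiber_le' _ _ v)
    _ = _ := by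
        rw [Finset.sum_const, hcard, smul_eq_mul]

open Classical in
theorem full_card [Fintype A] (ε : A) :
    2 ^ (Fintype.card A / 3) * (Finset.univ.filter fun T : Finset (Orb A) => Full ε T).card ≤
      2 ^ Fintype.card (Orb A) ∧ Fintype.card A / 3 ≤ Fintype.card (Orb A) := by
  set E : Finset (Orb A) := Finset.univ.image (fun z => o 1 ε z) with hE
  have hEc : Fintype.card A / 3 ≤ E.card := by
    have h1 := Finset.card_le_mul_card_image (f := fun z => o 1 ε z) (Finset.univ : Finset A) 3
      (fun v _ => fiber_le 1 ε v)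
    rw [Finset.card_univ, ← hE] at h1
    omega
  have hfe : (Finset.univ.filter fun T : Finset (Orb A) => Full ε T) = Finset.Icc E Finset.univ := by
    ext T
    simp only [Finset.mem_filter, Finset.mem_univ, true_and, Finset.mem_Icc,
      Finset.subset_univ, and_true]
    constructor
    · intro h v hv
      obtain ⟨z, -, rfl⟩ := Finset.mem_image.1 hv
      exact h z
    · intro h z
      exact h (Finset.mem_image.2 ⟨z, Finset.mem_univ _, rfl⟩)
  have hEle : E.card ≤ Fintype.card (Orb A) := Finset.card_le_univ E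
  refine ⟨?_, hEc.trans hEle⟩
  rw [hfe, Finset.card_Icc_finset (Finset.subset_univ E), Finset.card_univ, ← pow_add]
  exact Nat.pow_le_pow_right (by norm_num) (by omega)

end orb

end Pool.Agent.N206.HF
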