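import Mathlib

set_option autoImplicit false
set_option linter.unusedSectionVars false

namespace Pool.Agent.N206.HF

/-- structures on `Fin (r + 1)` -/
abbrev Str (r : ℕ) : Type :=
  (Fin (r+1) → Fin (r+1) → Fin (r+1)) × (Fin (r+1) → Fin (r+1) → Set (Fin (r+1)))

/-- the structure is the quotient by `G` -/
def IsQ {r : ℕ} (K : Type) [Field K] (G : Subgroup Kˣ) (f : K → Fin (r+1)) (p : Str r) : Prop :=
  Function.Surjective f ∧ f 0 = 0 ∧
                (∀ x y : K, f x = f y ↔ ∃ g ∈ G, y = x * (g : K)) ∧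
                (∀ x y : K, f (x * y) = p.1 (f x) (f y)) ∧
                (∀ x y : K, p.2 (f x) (f y) = {z | ∃ g ∈ G, ∃ h ∈ G, z = f (x * (g : K) + y * (h : K))})

/-- isomorphism -/
def Iso {r : ℕ} (p q : Str r) : Prop :=
  ∃ e : Fin (r+1) ≃ Fin (r+1), ∀ a b, e (p.1 a b) = q.1 (e a) (e b) ∧ e '' p.2 a b = q.2 (e a) (e b)

theorem Iso.refl {r : ℕ} (p : Str r) : Iso p p := ⟨Equiv.refl _, fun a b => ⟨rfl, by simp⟩⟩

theorem Iso.symm {r : ℕ} {p q : Str r} (h : Iso p q) : Iso q p := by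
  obtain ⟨e, he⟩ := h
  refine ⟨e.symm, fun a b => ⟨?_, ?_⟩⟩
  · have := (he (e.symm a) (e.symm b)).1
    rw [e.apply_symm_apply, e.apply_symm_apply] at this
    rw [← this, e.symm_apply_apply]
  · have := (he (e.symm a) (e.symm b)).2
    rw [e.apply_symm_apply, e.apply_symm_apply] at this
    rw [← this, e.symm_image_image]

theorem Iso.trans {r : ℕ} {p q s : Str r} (h : Iso p q) (h' : Iso q s) : Iso p s := by
  obtain ⟨e, he⟩ := h
  obtain ⟨e', he'⟩ := h'
  refine ⟨e.trans e', fun a b => ⟨?_, ?_⟩⟩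
  · rw [Equiv.trans_apply, (he a b).1, (he' _ _).1]
    rfl
  · have h1 : (e.trans e') '' p.2 a b = e' '' (e '' p.2 a b) := by
      rw [Set.image_image]
      rfl
    rw [h1, (he a b).2, (he' _ _).2]
    rfl

section

variable {r : ℕ} {K : Type} [Field K] {G : Subgroup Kˣ} {f : K → Fin (r+1)} {p : Str r}

theorem IsQ.zero_iff (h : IsQ K G f p) (x : K) : f x = 0 ↔ x = 0 := by
  rw [← h.2.1]
  constructor
  · intro h1
    obtain ⟨g, hg, h2⟩ := (h.2.2.1 0 x).1 h1.symm
    rw [zero_mul] at h2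
    exact h2
  · rintro rfl
    rfl

theorem IsQ.card_eq (h : IsQ K G f p) [Finite K] : Nat.card K = r * Nat.card G + 1 := by
  classical
  have := Fintype.ofFinite K
  have h1 : Nat.card Kˣ = Nat.card K - 1 := Nat.card_units K
  have h2 : Nat.card (Kˣ ⧸ G) = r := by
    have h3 : Nat.card {a : Fin (r+1) // a ≠ 0} = r := by
      rw [Nat.card_eq_fintype_card, Fintype.card_subtype_compl]
      simp
    rw [← h3]
    let F : Kˣ → {a : Fin (r+1) // a ≠ 0} := fun u => ⟨f u, fun h0 => u.ne_zero ((h.zero_iff _).1 h0)⟩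
    have hF : ∀ u v : Kˣ, F u = F v ↔ u⁻¹ * v ∈ G := by
      intro u v
      rw [Subtype.ext_iff]
      change f u = f v ↔ _
      rw [h.2.2.1]
      constructor
      · rintro ⟨g, hg, h4⟩
        have : v = u * g := Units.ext h4
        rw [this, inv_mul_cancel_left]
        exact hg
      · intro h4
        refine ⟨u⁻¹ * v, h4, ?_⟩
        rw [← Units.val_mul, mul_inv_cancel_left]
    refine Nat.card_congr (Equiv.ofBijective (Quotient.lift F fun u v huv => (hF u v).2 (QuotientGroup.leftRel_apply.1 huv))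
      ⟨?_, ?_⟩)
    · rintro ⟨u⟩ ⟨v⟩ huv
      exact QuotientGroup.eq.2 ((hF u v).1 huv)
    · rintro ⟨a, ha⟩
      obtain ⟨x, rfl⟩ := h.1 a
      have hx : x ≠ 0 := fun h0 => ha ((h.zero_iff x).2 h0)
      exact ⟨Quotient.mk _ (Units.mk0 x hx), rfl⟩
  have h3 := Subgroup.card_eq_card_quotient_mul_card_subgroup G
  rw [h2, h1] at h3
  have : 0 < Nat.card K := Nat.card_pos
  omega

theorem IsQ.pos (h : IsQ K G f p) : 0 < r := by
  rcases Nat.eq_zero_or_pos r with h0 | h0
  · subst h0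
    have h1 : f 1 = 0 := Fin.eq_zero (f 1)
    exact absurd ((h.zero_iff 1).1 h1) one_ne_zero
  · exact h0

theorem mem_iff_pow [Finite K] (G : Subgroup Kˣ) (u : Kˣ) : u ∈ G ↔ u ^ Nat.card G = 1 := by
  classical
  have := Fintype.ofFinite K
  have hpos : 0 < Nat.card G := Nat.card_pos
  have : NeZero (Nat.card G) := ⟨hpos.ne'⟩
  have hle : G ≤ rootsOfUnity (Nat.card G) K := by
    intro v hv
    rw [mem_rootsOfUnity]
    have := pow_card_eq_one' (x := (⟨v, hv⟩ : G))
    exact congrArg Subtype.val this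
  have heq : G = rootsOfUnity (Nat.card G) K := by
    exact Subgroup.eq_of_le_of_card_ge hle (card_rootsOfUnity K (Nat.card G))
  constructor
  · intro hu
    have := hle hu
    rwa [mem_rootsOfUnity] at this
  · intro hu
    rw [heq, mem_rootsOfUnity]
    exact hu

end

/-- finite fields of the same cardinality give isomorphic quotients -/
theorem uniq {r : ℕ} {K K' : Type} [Field K] [Field K'] {G : Subgroup Kˣ} {G' : Subgroup K'ˣ} {f : K → Fin (r+1)}
    {f' : K' → Fin (r+1)} {p p' : Str r} (h : IsQ K G f p) (h' : IsQ K' G' f' p') [Finite K] [Finite K']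
    (hcard : Nat.card K = Nat.card K') : Iso p p' := by
  classical
  have := Fintype.ofFinite K
  have := Fintype.ofFinite K'
  have hs : Nat.card G = Nat.card G' := by
    have h1 := h.card_eq
    have h2 := h'.card_eq
    rw [hcard, h2] at h1
    have h3 : r * Nat.card G' = r * Nat.card G := by omega
    exact (Nat.eq_of_mul_eq_mul_left h.pos h3).symm
  let φ : K ≃+* K' := FiniteField.ringEquivOfCardEq (by
    rw [← Nat.card_eq_fintype_card, ← Nat.card_eq_fintype_card, hcard])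
  have hφG : ∀ u : Kˣ, Units.map (φ : K →* K') u ∈ G' ↔ u ∈ G := by
    intro u
    rw [mem_iff_pow, mem_iff_pow, ← hs, ← map_pow]
    constructor
    · intro h1
      refine (Units.map_injective (f := (φ : K →* K')) φ.injective) ?_
      rw [h1, map_one]
    · intro h1
      rw [h1, map_one]
  have hφG' : ∀ g' ∈ G', ∃ g ∈ G, φ (g : K) = g' := by
    intro g' hg'
    refine ⟨Units.map (φ.symm : K' →* K) g', ?_, ?_⟩
    · rw [← hφG]
      convert hg'
      ext
      simp
    · simp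
  obtain ⟨σ, hσ⟩ := h.1.hasRightInverse
  let e₀ : Fin (r+1) → Fin (r+1) := fun a => f' (φ (σ a))
  have he₀ : ∀ x, e₀ (f x) = f' (φ x) := by
    intro x
    have h1 := hσ (f x)
    obtain ⟨g, hg, h2⟩ := (h.2.2.1 _ _).1 h1
    refine (h'.2.2.1 _ _).2 ⟨Units.map (φ : K →* K') g, (hφG g).2 hg, ?_⟩
    conv_lhs => rw [h2, map_mul]
    rfl
  have hinj : Function.Injective e₀ := by
    intro a b hab
    obtain ⟨x, rfl⟩ := h.1 a
    obtain ⟨y, rfl⟩ := h.1 b
    rw [he₀, he₀, h'.2.2.1] at hab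
    obtain ⟨g', hg', h2⟩ := hab
    obtain ⟨g, hg, h3⟩ := hφG' g' hg'
    refine (h.2.2.1 _ _).2 ⟨g, hg, φ.injective ?_⟩
    rw [map_mul, h3]
    exact h2
  let e : Fin (r+1) ≃ Fin (r+1) := Equiv.ofBijective e₀ (Finite.injective_iff_bijective.1 hinj)
  have he : ∀ x, e (f x) = f' (φ x) := he₀
  refine ⟨e, fun a b => ?_⟩
  obtain ⟨x, rfl⟩ := h.1 a
  obtain ⟨y, rfl⟩ := h.1 b
  refine ⟨?_, ?_⟩
  · rw [← h.2.2.2.1, he, he, he, map_mul, h'.2.2.2.1]
  · rw [he, he, h'.2.2.2.2, h.2.2.2.2]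
    ext z
    constructor
    · rintro ⟨w, ⟨g, hg, k, hk, rfl⟩, rfl⟩
      refine ⟨Units.map (φ : K →* K') g, (hφG g).2 hg, Units.map (φ : K →* K') k, (hφG k).2 hk, ?_⟩
      rw [he, map_add, map_mul, map_mul]
      rfl
    · rintro ⟨g', hg', k', hk', rfl⟩
      obtain ⟨g, hg, h1⟩ := hφG' g' hg'
      obtain ⟨k, hk, h2⟩ := hφG' k' hk'
      refine ⟨f (x * (g : K) + y * (k : K)), ⟨g, hg, k, hk, rfl⟩, ?_⟩
      rw [he, map_add, map_mul, map_mul, h1, h2]

end Pool.Agent.N206.HF
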