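import Mathlib
import Pool.Agent.N206.HF.Uniq
import Pool.Agent.N206.HF.Count

set_option autoImplicit false
set_option linter.unusedSectionVars false

namespace Pool.Agent.N206.HF

/-- a commutative group with zero on `Fin (r + 1)` -/
structure IsMul {r : ℕ} (m : Fin (r+1) → Fin (r+1) → Fin (r+1)) : Prop where
  unit : ∃ u : Fin (r+1), u ≠ 0 ∧ ∀ a, m u a = a
  comm : ∀ a b, m a b = m b a
  assoc : ∀ a b c, m (m a b) c = m a (m b c)
  zero : ∀ a, m 0 a = 0
  ne : ∀ a b, a ≠ 0 → b ≠ 0 → m a b ≠ 0
  inv : ∀ a, a ≠ 0 → ∃ b, ∀ c, m (m a b) c = c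

/-- the axioms of hyperfields -/
def IsH {r : ℕ} (p : Str r) : Prop :=
  ((∃ u : Fin (r+1), u ≠ 0 ∧ ∀ a, p.1 u a = a) ∧
                (∀ a b, p.1 a b = p.1 b a) ∧
                (∀ a b c, p.1 (p.1 a b) c = p.1 a (p.1 b c)) ∧
                (∀ a, p.1 0 a = 0) ∧
                (∀ a b, a ≠ 0 → b ≠ 0 → p.1 a b ≠ 0) ∧
                (∀ a, a ≠ 0 → ∃ b, ∀ c, p.1 (p.1 a b) c = c) ∧
                (∀ a b, (p.2 a b).Nonempty) ∧
                (∀ a b, p.2 a b = p.2 b a) ∧
                (∀ a b c, (⋃ x ∈ p.2 a b, p.2 x c) = ⋃ x ∈ p.2 b c, p.2 a x) ∧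
                (∀ a, p.2 0 a = {a}) ∧
                (∀ a, ∃! b, (0 : Fin (r+1)) ∈ p.2 a b) ∧
                (∀ a b c d, a ∈ p.2 b c → (0 : Fin (r+1)) ∈ p.2 b d → c ∈ p.2 a d) ∧
                (∀ a b c, (fun x => p.1 a x) '' p.2 b c = p.2 (p.1 a b) (p.1 a c)))

section

variable {r : ℕ} {m : Fin (r+1) → Fin (r+1) → Fin (r+1)}

/-- the nonzero elements -/
def Gp (_h : IsMul m) : Type := {a : Fin (r+1) // a ≠ 0}

instance (h : IsMul m) : Finite (Gp h) := inferInstanceAs (Finite {a : Fin (r+1) // a ≠ 0})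

noncomputable instance (h : IsMul m) : Fintype (Gp h) := Fintype.ofFinite _

theorem card_Gp (h : IsMul m) : Fintype.card (Gp h) = r := by
  rw [← Nat.card_eq_fintype_card]
  change Nat.card {a : Fin (r+1) // a ≠ 0} = r
  rw [Nat.card_eq_fintype_card, Fintype.card_subtype_compl]
  simp

theorem inv_ne (h : IsMul m) {a b : Fin (r+1)} (hb : ∀ c, m (m a b) c = c) : b ≠ 0 := by
  rintro rfl
  obtain ⟨u, hu, hu'⟩ := h.unit
  have h1 := hb u
  rw [h.comm a 0, h.zero, h.zero] at h1
  exact hu h1.symm

noncomputable instance (h : IsMul m) : CommGroup (Gp h) :=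
  { mul := fun a b => ⟨m a.1 b.1, h.ne _ _ a.2 b.2⟩
    one := ⟨h.unit.choose, h.unit.choose_spec.1⟩
    inv := fun a => ⟨(h.inv a.1 a.2).choose, inv_ne h (h.inv a.1 a.2).choose_spec⟩
    mul_assoc := fun a b c => Subtype.ext (h.assoc _ _ _)
    one_mul := fun a => Subtype.ext (h.unit.choose_spec.2 _)
    mul_one := fun a => Subtype.ext ((h.comm _ _).trans (h.unit.choose_spec.2 _))
    mul_comm := fun a b => Subtype.ext (h.comm _ _)
    inv_mul_cancel := fun a => Subtype.ext (by
      have h1 := (h.inv a.1 a.2).choose_spec h.unit.choose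
      rw [h.comm, h.unit.choose_spec.2, h.comm] at h1
      exact h1) }

theorem mul_val (h : IsMul m) (a b : Gp h) : (a * b).1 = m a.1 b.1 := rfl

theorem cases0 (h : IsMul m) (a : Fin (r+1)) : a = 0 ∨ ∃ x : Gp h, x.1 = a := by
  by_cases ha : a = 0
  · exact Or.inl ha
  · exact Or.inr ⟨⟨a, ha⟩, rfl⟩

/-- the structure with given multiplication, `-1` and symmetric relation -/
def build (h : IsMul m) (ε : Gp h) (T : Finset (Orb (Gp h))) : Str r :=
  (m, fun a b => {c | (a = 0 ∧ c = b) ∨ (b = 0 ∧ c = a) ∨ (∃ x y : Gp h, x.1 = a ∧ y.1 = b ∧ c = 0 ∧ y = ε * x) ∨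
    ∃ x y z : Gp h, x.1 = a ∧ y.1 = b ∧ z.1 = c ∧ o x y (ε * z) ∈ T})

variable (h : IsMul m) (ε : Gp h) (T : Finset (Orb (Gp h)))

theorem build_zero (b : Fin (r+1)) : (build h ε T).2 0 b = {b} := by
  ext c
  simp only [build, Set.mem_ofPred_eq, Set.mem_singleton_iff]
  constructor
  · rintro (h1 | ⟨rfl, rfl⟩ | ⟨x, y, hx, _⟩ | ⟨x, y, z, hx, _⟩)
    · exact h1.2
    · rfl
    · exact absurd hx x.2
    · exact absurd hx x.2
  · intro h1
    exact Or.inl ⟨trivial, h1⟩

theorem build_zero' (b : Fin (r+1)) : (build h ε T).2 b 0 = {b} := by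
  ext c
  simp only [build, Set.mem_ofPred_eq, Set.mem_singleton_iff]
  constructor
  · rintro (⟨rfl, rfl⟩ | h1 | ⟨x, y, _, hx, _⟩ | ⟨x, y, z, _, hx, _⟩)
    · rfl
    · exact h1.2
    · exact absurd hx y.2
    · exact absurd hx y.2
  · intro h1
    exact Or.inr (Or.inl ⟨trivial, h1⟩)

theorem build_mem0 (x y : Gp h) : (0 : Fin (r+1)) ∈ (build h ε T).2 x.1 y.1 ↔ y = ε * x := by
  simp only [build, Set.mem_ofPred_eq]
  constructor
  · rintro (⟨h1, _⟩ | ⟨h1, _⟩ | ⟨x', y', hx, hy, _, hxy⟩ | ⟨x', y', z, _, _, hz, _⟩)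
    · exact absurd h1 x.2
    · exact absurd h1 y.2
    · rw [← Subtype.ext hx, ← Subtype.ext hy]
      exact hxy
    · exact absurd hz z.2
  · intro h1
    exact Or.inr (Or.inr (Or.inl ⟨x, y, rfl, rfl, trivial, h1⟩))

theorem build_mem (x y z : Gp h) : z.1 ∈ (build h ε T).2 x.1 y.1 ↔ o x y (ε * z) ∈ T := by
  simp only [build, Set.mem_ofPred_eq]
  constructor
  · rintro (⟨h1, _⟩ | ⟨h1, _⟩ | ⟨x', y', _, _, h0, _⟩ | ⟨x', y', z', hx, hy, hz, h1⟩)
    · exact absurd h1 x.2
    · exact absurd h1 y.2
    · exact absurd h0 z.2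
    · rw [← Subtype.ext hx, ← Subtype.ext hy, ← Subtype.ext hz]
      exact h1
  · intro h1
    exact Or.inr (Or.inr (Or.inr ⟨x, y, z, rfl, rfl, rfl, h1⟩))

variable {ε T}

theorem mul_mul_self {h : IsMul m} {ε : Gp h} (hε : ε * ε = 1) (x : Gp h) : ε * (ε * x) = x := by
  rw [← mul_assoc, hε, one_mul]

theorem eq_eps {h : IsMul m} {ε : Gp h} (hε : ε * ε = 1) (x y : Gp h) : y = ε * x ↔ x = ε * y := by
  constructor
  · rintro rfl
    rw [mul_mul_self hε]
  · rintro rfl
    rw [mul_mul_self hε]

/-- good structures are hyperfields -/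
theorem isH_build (hε : ε * ε = 1) (hT : Good ε T) : IsH (build h ε T) := by
  refine ⟨h.unit, h.comm, h.assoc, h.zero, h.ne, h.inv, ?_, ?_, ?_, ?_, ?_, ?_, ?_⟩
  · intro a b
    rcases cases0 h a with rfl | ⟨x, rfl⟩
    · rw [build_zero]; exact Set.singleton_nonempty _
    · rcases cases0 h b with rfl | ⟨y, rfl⟩
      · rw [build_zero']; exact Set.singleton_nonempty _
      · obtain ⟨z, hz, _⟩ := hT x y 1 1
        exact ⟨z.1, (build_mem h ε T x y z).2 hz⟩
  · intro a b
    rcases cases0 h a with rfl | ⟨x, rfl⟩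
    · rw [build_zero, build_zero']
    · rcases cases0 h b with rfl | ⟨y, rfl⟩
      · rw [build_zero, build_zero']
      · ext c
        rcases cases0 h c with rfl | ⟨z, rfl⟩
        · rw [build_mem0, build_mem0, eq_eps hε]
        · rw [build_mem, build_mem, o_swap]
  · intro a b c
    rcases cases0 h a with rfl | ⟨x, rfl⟩
    · ext t
      simp [build_zero]
    · rcases cases0 h b with rfl | ⟨y, rfl⟩
      · simp [build_zero, build_zero']
      · rcases cases0 h c with rfl | ⟨w, rfl⟩
        · ext t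
          simp [build_zero']
        · ext t
          simp only [Set.mem_iUnion, exists_prop]
          rcases cases0 h t with rfl | ⟨t, rfl⟩
          · have e1 : (∃ i, i ∈ (build h ε T).2 x.1 y.1 ∧ (0 : Fin (r+1)) ∈ (build h ε T).2 i w.1) ↔ o x y w ∈ T := by
              constructor
              · rintro ⟨i, hi, hi'⟩
                rcases cases0 h i with rfl | ⟨i, rfl⟩
                · rw [build_zero] at hi'
                  exact absurd hi'.symm w.2
                · rw [build_mem] at hi
                  rw [build_mem0] at hi'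
                  rw [← hi'] at hi
                  exact hi
              · intro h1
                refine ⟨(ε * w).1, (build_mem h ε T _ _ _).2 ?_, (build_mem0 h ε T _ _).2 ?_⟩
                · rw [mul_mul_self hε]; exact h1
                · rw [mul_mul_self hε]
            have e2 : (∃ i, i ∈ (build h ε T).2 y.1 w.1 ∧ (0 : Fin (r+1)) ∈ (build h ε T).2 x.1 i) ↔ o y w x ∈ T := by
              constructor
              · rintro ⟨i, hi, hi'⟩
                rcases cases0 h i with rfl | ⟨i, rfl⟩
                · rw [build_zero'] at hi'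
                  exact absurd hi'.symm x.2
                · rw [build_mem] at hi
                  rw [build_mem0, eq_eps hε] at hi'
                  rw [← hi'] at hi
                  exact hi
              · intro h1
                refine ⟨(ε * x).1, (build_mem h ε T _ _ _).2 ?_, (build_mem0 h ε T _ _).2 rfl⟩
                rw [mul_mul_self hε]; exact h1
            rw [e1, e2, o_swap x y w, o_swap' y x w]
          · constructor
            · intro _
              obtain ⟨z, h1, h2⟩ := hT y w x t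
              refine ⟨z.1, (build_mem h ε T _ _ _).2 h1, (build_mem h ε T _ _ _).2 ?_⟩
              rw [o_swap]; exact h2
            · intro _
              obtain ⟨z, h1, h2⟩ := hT x y w t
              exact ⟨z.1, (build_mem h ε T _ _ _).2 h1, (build_mem h ε T _ _ _).2 h2⟩
  · exact build_zero h ε T
  · intro a
    rcases cases0 h a with rfl | ⟨x, rfl⟩
    · refine ⟨0, by simp [build_zero], fun b hb => ?_⟩
      simp only [build_zero, Set.mem_singleton_iff] at hb
      exact hb.symm
    · refine ⟨(ε * x).1, (build_mem0 h ε T _ _).2 rfl, fun b hb => ?_⟩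
      rcases cases0 h b with rfl | ⟨y, rfl⟩
      · simp only [build_zero', Set.mem_singleton_iff] at hb
        exact absurd hb.symm x.2
      · rw [(build_mem0 h ε T _ _).1 hb]
  · intro a b c d h1 h2
    rcases cases0 h b with rfl | ⟨y, rfl⟩
    · rw [build_zero] at h1 h2
      rw [Set.mem_singleton_iff] at h1 h2
      subst h1
      subst h2
      rw [build_zero']
      rfl
    · rcases cases0 h d with rfl | ⟨d, rfl⟩
      · rw [build_zero'] at h2
        exact absurd (Set.mem_singleton_iff.1 h2).symm y.2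
      · rw [build_mem0] at h2
        subst h2
        rcases cases0 h c with rfl | ⟨w, rfl⟩
        · rw [build_zero'] at h1
          rw [Set.mem_singleton_iff.1 h1]
          exact (build_mem0 h ε T _ _).2 rfl
        · rcases cases0 h a with rfl | ⟨x, rfl⟩
          · rw [build_mem0] at h1
            rw [build_zero, h1]
            rfl
          · rw [build_mem] at h1 ⊢
            have h3 := o_smul ε y w (ε * x)
            rw [mul_mul_self hε] at h3
            rw [o_swap x, o_swap' _ x, h3]
            exact h1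
  · intro a b c
    change (fun x => m a x) '' _ = (build h ε T).2 (m a b) (m a c)
    rcases cases0 h a with rfl | ⟨x, rfl⟩
    · rw [h.zero, h.zero, build_zero]
      have hne : ((build h ε T).2 b c).Nonempty := by
        rcases cases0 h b with rfl | ⟨y, rfl⟩
        · rw [build_zero]; exact Set.singleton_nonempty _
        · rcases cases0 h c with rfl | ⟨w, rfl⟩
          · rw [build_zero']; exact Set.singleton_nonempty _
          · obtain ⟨z, hz, _⟩ := hT y w 1 1
            exact ⟨z.1, (build_mem h ε T _ _ z).2 hz⟩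
      simp only [h.zero]
      exact hne.image_const 0
    · have hx0 : ∀ w, m x.1 w = 0 ↔ w = 0 := by
        intro w
        constructor
        · intro h1
          by_contra hw
          exact h.ne _ _ x.2 hw h1
        · rintro rfl
          rw [h.comm, h.zero]
      rcases cases0 h b with rfl | ⟨y, rfl⟩
      · rw [(hx0 0).2 rfl, build_zero, build_zero, Set.image_singleton]
      · rcases cases0 h c with rfl | ⟨w, rfl⟩
        · rw [(hx0 0).2 rfl, build_zero', build_zero', Set.image_singleton]
        · ext t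
          rw [← mul_val h x y, ← mul_val h x w]
          constructor
          · rintro ⟨s, hs, rfl⟩
            rcases cases0 h s with rfl | ⟨s, rfl⟩
            · rw [build_mem0] at hs
              change m x.1 0 ∈ _
              rw [(hx0 0).2 rfl, build_mem0, hs]
              exact mul_left_comm _ _ _
            · change m x.1 s.1 ∈ _
              rw [← mul_val h x s, build_mem, mul_left_comm ε x s, o_smul]
              exact (build_mem h ε T _ _ _).1 hs
          · intro ht
            rcases cases0 h t with rfl | ⟨t, rfl⟩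
            · refine ⟨0, ?_, (hx0 0).2 rfl⟩
              rw [build_mem0] at ht ⊢
              rw [mul_left_comm] at ht
              exact mul_left_cancel ht
            · refine ⟨(x⁻¹ * t).1, ?_, ?_⟩
              · rw [build_mem] at ht ⊢
                rw [← o_smul x, mul_left_comm x ε, mul_inv_cancel_left]
                exact ht
              · change m x.1 (x⁻¹ * t).1 = t.1
                rw [← mul_val h x (x⁻¹ * t), mul_inv_cancel_left]

theorem build_inj {ε' : Gp h} {T' : Finset (Orb (Gp h))} (heq : build h ε T = build h ε' T') :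
    ε = ε' ∧ T = T' := by
  have h1 : ε = ε' := by
    have h2 : (0 : Fin (r+1)) ∈ (build h ε T).2 (1 : Gp h).1 ε.1 := (build_mem0 h ε T _ _).2 (mul_one ε).symm
    rw [heq, build_mem0, mul_one] at h2
    exact h2
  refine ⟨h1, ?_⟩
  subst h1
  ext v
  revert v
  refine o_ind fun x y z => ?_
  have h2 := build_mem h ε T x y (ε⁻¹ * z)
  have h3 := build_mem h ε T' x y (ε⁻¹ * z)
  rw [mul_inv_cancel_left] at h2 h3
  rw [← h2, ← h3, heq]

end

/-- the multiplication of a quotient -/
theorem isMul_of_isQ {r : ℕ} {K : Type} [Field K] {G : Subgroup Kˣ} {f : K → Fin (r+1)} {p : Str r}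
    (hp : IsQ K G f p) : IsMul p.1 := by
  have h0 := hp.zero_iff
  obtain ⟨hs, hf0, hf, hm, ha⟩ := hp
  refine ⟨⟨f 1, fun h1 => one_ne_zero ((h0 1).1 h1), fun a => ?_⟩, fun a b => ?_, fun a b c => ?_, fun a => ?_,
    fun a b ha hb => ?_, fun a ha => ?_⟩
  · obtain ⟨x, rfl⟩ := hs a
    rw [← hm, one_mul]
  · obtain ⟨x, rfl⟩ := hs a
    obtain ⟨y, rfl⟩ := hs b
    rw [← hm, ← hm, mul_comm]
  · obtain ⟨x, rfl⟩ := hs a
    obtain ⟨y, rfl⟩ := hs b
    obtain ⟨z, rfl⟩ := hs c
    rw [← hm, ← hm, ← hm, ← hm, mul_assoc]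
  · obtain ⟨x, rfl⟩ := hs a
    rw [← hf0, ← hm, zero_mul]
  · obtain ⟨x, rfl⟩ := hs a
    obtain ⟨y, rfl⟩ := hs b
    rw [← hm, Ne, h0]
    rw [Ne, h0] at ha hb
    exact mul_ne_zero ha hb
  · obtain ⟨x, rfl⟩ := hs a
    rw [Ne, h0] at ha
    refine ⟨f x⁻¹, fun c => ?_⟩
    obtain ⟨z, rfl⟩ := hs c
    rw [← hm, ← hm, mul_inv_cancel₀ ha, one_mul]

/-- quotients are structures of this form -/
theorem exists_build {r : ℕ} {K : Type} [Field K] {G : Subgroup Kˣ} {f : K → Fin (r+1)} {p : Str r}
    (hp : IsQ K G f p) (hd : ∀ a : K, a ≠ 0 → ∃ h ∈ G, ∃ g ∈ G, (h : K) - 1 = a * (g : K)) :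
    ∃ (h : IsMul p.1) (ε : Gp h) (T : Finset (Orb (Gp h))), ε * ε = 1 ∧ Full ε T ∧ p = build h ε T := by
  classical
  have h0 := hp.zero_iff
  have h : IsMul p.1 := isMul_of_isQ hp
  obtain ⟨hs, hf0, hf, hm, ha⟩ := hp
  have key : ∀ x : K, x ≠ 0 → ∃ v : Gp h, v.1 = f x := fun x hx => ⟨⟨f x, fun h1 => hx ((h0 x).1 h1)⟩, rfl⟩
  obtain ⟨ε, hε⟩ := key (-1) (neg_ne_zero.2 one_ne_zero)
  obtain ⟨o1, ho1⟩ := key 1 one_ne_zero
  have ho1' : o1 = 1 := by
    have h1 : o1 * o1 = o1 := by
      apply Subtype.ext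
      rw [mul_val, ho1, ← hm, one_mul]
    exact mul_eq_left.1 h1
  subst ho1'
  have hεε : ε * ε = 1 := by
    apply Subtype.ext
    rw [mul_val, hε, ← hm, ho1]
    norm_num
  -- the relation
  let R : Gp h → Gp h → Gp h → Prop := fun a b c => ∃ x y z : K, x + y + z = 0 ∧ f x = a.1 ∧ f y = b.1 ∧ f z = c.1
  let T : Finset (Orb (Gp h)) := Finset.univ.filter fun v => ∃ a b c, o a b c = v ∧ R a b c
  have hR1 : ∀ a b c, R a b c → R b a c := by
    rintro a b c ⟨x, y, z, h1, h2, h3, h4⟩
    exact ⟨y, x, z, by rw [← h1]; ring, h3, h2, h4⟩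
  have hR2 : ∀ a b c, R a b c → R a c b := by
    rintro a b c ⟨x, y, z, h1, h2, h3, h4⟩
    exact ⟨x, z, y, by rw [← h1]; ring, h2, h4, h3⟩
  have hR3 : ∀ g a b c, R a b c → R (g * a) (g * b) (g * c) := by
    rintro g a b c ⟨x, y, z, h1, h2, h3, h4⟩
    obtain ⟨w, hw⟩ := hs g.1
    refine ⟨w * x, w * y, w * z, ?_, ?_, ?_, ?_⟩
    · rw [← mul_add, ← mul_add, h1, mul_zero]
    · rw [hm, hw, h2]; rfl
    · rw [hm, hw, h3]; rfl
    · rw [hm, hw, h4]; rfl
  have hRT : ∀ a b c, o a b c ∈ T ↔ R a b c := by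
    intro a b c
    constructor
    · intro hT
      obtain ⟨a', b', c', ho, hR⟩ := (Finset.mem_filter.1 hT).2
      obtain ⟨g, hg⟩ := o_eq.1 ho
      have hR' := hR3 g _ _ _ hR
      generalize g * a' = A' at hg hR'
      generalize g * b' = B' at hg hR'
      generalize g * c' = C' at hg hR'
      -- permutations
      have ha : a ∈ ({A', B', C'} : Multiset (Gp h)) := by rw [hg]; simp
      simp only [Multiset.insert_eq_cons, Multiset.mem_cons, Multiset.mem_singleton] at ha
      rcases ha with rfl | rfl | rfl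
      · have h2 : ({B', C'} : Multiset (Gp h)) = {b, c} := (Multiset.cons_inj_right _).1 hg
        have hb : b ∈ ({B', C'} : Multiset (Gp h)) := by rw [h2]; simp
        simp only [Multiset.insert_eq_cons, Multiset.mem_cons, Multiset.mem_singleton] at hb
        rcases hb with rfl | rfl
        · have h3 : ({C'} : Multiset (Gp h)) = {c} := (Multiset.cons_inj_right _).1 h2
          rw [← Multiset.singleton_inj.1 h3]
          exact hR'
        · have h2' : ({b, B'} : Multiset (Gp h)) = {b, c} := by rw [← h2]; exact Multiset.cons_swap _ _ _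
          have h3 : ({B'} : Multiset (Gp h)) = {c} := (Multiset.cons_inj_right _).1 h2'
          rw [← Multiset.singleton_inj.1 h3]
          exact hR2 _ _ _ hR'
      · have hg' : ({a, A', C'} : Multiset (Gp h)) = {a, b, c} := by rw [← hg]; exact Multiset.cons_swap _ _ _
        have h2 : ({A', C'} : Multiset (Gp h)) = {b, c} := (Multiset.cons_inj_right _).1 hg'
        have hb : b ∈ ({A', C'} : Multiset (Gp h)) := by rw [h2]; simp
        simp only [Multiset.insert_eq_cons, Multiset.mem_cons, Multiset.mem_singleton] at hb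
        rcases hb with rfl | rfl
        · have h3 : ({C'} : Multiset (Gp h)) = {c} := (Multiset.cons_inj_right _).1 h2
          rw [← Multiset.singleton_inj.1 h3]
          exact hR1 _ _ _ hR'
        · have h2' : ({b, A'} : Multiset (Gp h)) = {b, c} := by rw [← h2]; exact Multiset.cons_swap _ _ _
          have h3 : ({A'} : Multiset (Gp h)) = {c} := (Multiset.cons_inj_right _).1 h2'
          rw [← Multiset.singleton_inj.1 h3]
          exact hR2 _ _ _ (hR1 _ _ _ hR')
      · have hg' : ({a, A', B'} : Multiset (Gp h)) = {a, b, c} := by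
          rw [← hg]
          change a ::ₘ A' ::ₘ {B'} = A' ::ₘ B' ::ₘ {a}
          rw [Multiset.cons_swap]
          congr 1
          exact Multiset.cons_swap _ _ 0
        have h2 : ({A', B'} : Multiset (Gp h)) = {b, c} := (Multiset.cons_inj_right _).1 hg'
        have hb : b ∈ ({A', B'} : Multiset (Gp h)) := by rw [h2]; simp
        simp only [Multiset.insert_eq_cons, Multiset.mem_cons, Multiset.mem_singleton] at hb
        rcases hb with rfl | rfl
        · have h3 : ({B'} : Multiset (Gp h)) = {c} := (Multiset.cons_inj_right _).1 h2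
          rw [← Multiset.singleton_inj.1 h3]
          exact hR1 _ _ _ (hR2 _ _ _ hR')
        · have h2' : ({b, A'} : Multiset (Gp h)) = {b, c} := by rw [← h2]; exact Multiset.cons_swap _ _ _
          have h3 : ({A'} : Multiset (Gp h)) = {c} := (Multiset.cons_inj_right _).1 h2'
          rw [← Multiset.singleton_inj.1 h3]
          exact hR2 _ _ _ (hR1 _ _ _ (hR2 _ _ _ hR'))
    · intro hR
      exact Finset.mem_filter.2 ⟨Finset.mem_univ _, a, b, c, rfl, hR⟩
  have hneg : ∀ x : K, ∀ v : Gp h, f x = v.1 → f (-x) = (ε * v).1 := by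
    intro x v hv
    rw [mul_val, hε, ← hv, ← hm, neg_one_mul]
  refine ⟨h, ε, T, hεε, ?_, ?_⟩
  · intro z
    rw [hRT]
    obtain ⟨w, hw⟩ := hs z.1
    have hw0 : w ≠ 0 := by
      rintro rfl
      exact z.2 (by rw [← hw, hf0])
    obtain ⟨k, hk, g, hg, h1⟩ := hd (-w) (neg_ne_zero.2 hw0)
    refine ⟨k, -1, w * g, ?_, ?_, hε.symm, ?_⟩
    · rw [← sub_eq_add_neg, h1]; ring
    · rw [ho1]
      exact ((hf 1 (k : K)).2 ⟨k, hk, by rw [one_mul]⟩).symm
    · rw [← hw]
      exact ((hf w _).2 ⟨g, hg, rfl⟩).symm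
  · refine Prod.ext rfl ?_
    funext a b
    rcases cases0 h a with rfl | ⟨a, rfl⟩
    · rw [build_zero]
      obtain ⟨y, rfl⟩ := hs b
      have h1 := ha 0 y
      rw [hf0] at h1
      rw [h1]
      ext z
      simp only [Set.mem_ofPred_eq, Set.mem_singleton_iff, zero_mul, zero_add]
      constructor
      · rintro ⟨g, hg, k, hk, rfl⟩
        exact ((hf y _).2 ⟨k, hk, rfl⟩).symm
      · rintro rfl
        exact ⟨1, G.one_mem, 1, G.one_mem, by simp⟩
    · rcases cases0 h b with rfl | ⟨b, rfl⟩
      · rw [build_zero']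
        obtain ⟨x, hx⟩ := hs a.1
        have h1 := ha x 0
        rw [hf0, hx] at h1
        rw [h1]
        ext z
        simp only [Set.mem_ofPred_eq, Set.mem_singleton_iff, zero_mul, add_zero]
        constructor
        · rintro ⟨g, hg, k, hk, rfl⟩
          rw [← hx]
          exact ((hf x _).2 ⟨g, hg, rfl⟩).symm
        · rintro rfl
          exact ⟨1, G.one_mem, 1, G.one_mem, by simp [hx]⟩
      · obtain ⟨x, hx⟩ := hs a.1
        obtain ⟨y, hy⟩ := hs b.1
        have h1 := ha x y
        rw [hx, hy] at h1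
        rw [h1]
        have h2 : ∀ c, (∃ g ∈ G, ∃ k ∈ G, c = f (x * (g : K) + y * (k : K))) ↔
            ∃ x' y' : K, f x' = a.1 ∧ f y' = b.1 ∧ f (x' + y') = c := by
          intro c
          constructor
          · rintro ⟨g, hg, k, hk, rfl⟩
            refine ⟨x * g, y * k, ?_, ?_, rfl⟩
            · rw [← hx]; exact ((hf x _).2 ⟨g, hg, rfl⟩).symm
            · rw [← hy]; exact ((hf y _).2 ⟨k, hk, rfl⟩).symm
          · rintro ⟨x', y', hx', hy', rfl⟩
            obtain ⟨g, hg, e1⟩ := (hf x x').1 (hx.trans hx'.symm)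
            obtain ⟨k, hk, e2⟩ := (hf y y').1 (hy.trans hy'.symm)
            exact ⟨g, hg, k, hk, by rw [e1, e2]⟩
        ext c
        rw [Set.mem_ofPred_eq, h2]
        rcases cases0 h c with rfl | ⟨c, rfl⟩
        · rw [build_mem0]
          constructor
          · rintro ⟨x', y', hx', hy', h3⟩
            rw [h0] at h3
            have h4 : y' = -x' := by linear_combination h3
            apply Subtype.ext
            rw [← hy', h4]
            exact hneg x' a hx'
          · intro h3
            refine ⟨x, -x, hx, ?_, ?_⟩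
            · rw [hneg x a hx, h3]
            · rw [h0]; ring
        · rw [build_mem, hRT]
          constructor
          · rintro ⟨x', y', hx', hy', h3⟩
            exact ⟨x', y', -(x' + y'), by ring, hx', hy', hneg _ _ h3⟩
          · rintro ⟨x', y', z', h3, hx', hy', hz'⟩
            refine ⟨x', y', hx', hy', ?_⟩
            have h4 : x' + y' = -z' := by linear_combination h3
            rw [h4, hneg z' _ hz', mul_mul_self hεε]

end Pool.Agent.N206.HF
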