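import Mathlib
import Pool.Agent.N206.HF.Build

set_option autoImplicit false
set_option linter.unusedSectionVars false

namespace Pool.Agent.N206.HF

open Finset

theorem exists_gen (G : Type) [Group G] [Finite G] :
    ∃ S : Finset G, Subgroup.closure (S : Set G) = ⊤ ∧ 2 ^ S.card ≤ Nat.card G := by
  classical
  have := Fintype.ofFinite G
  obtain ⟨S, hS, hmax⟩ := Finset.exists_max_image
    ((Finset.univ : Finset (Finset G)).filter fun S : Finset G =>
      2 ^ S.card ≤ Nat.card (Subgroup.closure (S : Set G)))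
    Finset.card ⟨∅, by simp⟩
  have hS' := (Finset.mem_filter.1 hS).2
  have htop : Subgroup.closure (S : Set G) = ⊤ := by
    by_contra hne
    obtain ⟨x, hx⟩ : ∃ x, x ∉ Subgroup.closure (S : Set G) := by
      by_contra hcon
      push Not at hcon
      exact hne (Subgroup.eq_top_iff' _ |>.2 hcon)
    have hxS : x ∉ S := fun h => hx (Subgroup.subset_closure h)
    have hle : Subgroup.closure (S : Set G) ≤ Subgroup.closure ((insert x S : Finset G) : Set G) :=
      Subgroup.closure_mono (by simp)
    have hx' : x ∈ Subgroup.closure ((insert x S : Finset G) : Set G) := Subgroup.subset_closure (by simp)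
    have hdvd := Subgroup.card_dvd_of_le hle
    have hneq : Nat.card (Subgroup.closure (S : Set G)) ≠
        Nat.card (Subgroup.closure ((insert x S : Finset G) : Set G)) := by
      intro heq
      have := Subgroup.eq_of_le_of_card_ge hle heq.symm.le
      rw [this] at hx
      exact hx hx'
    have hpos : 0 < Nat.card (Subgroup.closure ((insert x S : Finset G) : Set G)) := Nat.card_pos
    have h2 : 2 * Nat.card (Subgroup.closure (S : Set G)) ≤
        Nat.card (Subgroup.closure ((insert x S : Finset G) : Set G)) := by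
      obtain ⟨k, hk⟩ := hdvd
      rw [hk]
      have hk2 : 2 ≤ k := by
        rcases k with _ | _ | k
        · rw [mul_zero] at hk; omega
        · rw [hk] at hneq
          exact absurd (by ring) hneq
        · omega
      calc 2 * Nat.card (Subgroup.closure (S : Set G)) ≤ k * Nat.card (Subgroup.closure (S : Set G)) :=
            Nat.mul_le_mul_right _ hk2
        _ = _ := mul_comm _ _
    have h3 := hmax (insert x S) (Finset.mem_filter.2 ⟨Finset.mem_univ _, by
      rw [Finset.card_insert_of_notMem hxS, pow_succ]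
      omega⟩)
    rw [Finset.card_insert_of_notMem hxS] at h3
    omega
  refine ⟨S, htop, ?_⟩
  rw [htop] at hS'
  rw [← Subgroup.card_top (G := G)]
  exact hS'

variable {r : ℕ}

/-- permutations fixing `0` -/
def P0 (r : ℕ) : Type := {e : Equiv.Perm (Fin (r+1)) // e 0 = 0}

noncomputable instance : Fintype (P0 r) := by
  classical
  exact inferInstanceAs (Fintype {e : Equiv.Perm (Fin (r+1)) // e 0 = 0})

/-- transport of structure -/
def act (e : Equiv.Perm (Fin (r+1))) (p : Str r) : Str r :=
  (fun a b => e (p.1 (e.symm a) (e.symm b)), fun a b => e '' p.2 (e.symm a) (e.symm b))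

theorem act_iff (e : Equiv.Perm (Fin (r+1))) (p q : Str r) :
    (∀ a b, e (p.1 a b) = q.1 (e a) (e b) ∧ e '' p.2 a b = q.2 (e a) (e b)) ↔ act e p = q := by
  constructor
  · intro h
    refine Prod.ext ?_ ?_
    · funext a b
      change e (p.1 (e.symm a) (e.symm b)) = _
      rw [(h _ _).1]
      simp
    · funext a b
      change e '' p.2 (e.symm a) (e.symm b) = _
      rw [(h _ _).2]
      simp
  · rintro rfl a b
    simp [act]

theorem iso_iff (p q : Str r) : Iso p q ↔ ∃ e, act e p = q := by
  unfold Iso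
  constructor
  · rintro ⟨e, he⟩
    exact ⟨e, (act_iff e p q).1 he⟩
  · rintro ⟨e, he⟩
    exact ⟨e, (act_iff e p q).2 he⟩

/-- isomorphisms fix zero -/
theorem act_zero {e : Equiv.Perm (Fin (r+1))} {p q : Str r} (hp : IsMul p.1) (hq : IsMul q.1) (h : act e p = q) :
    e 0 = 0 := by
  have h1 := fun a => ((act_iff e p q).2 h 0 a).1
  have h2 := h1 (e.symm 0)
  rw [hp.zero, e.apply_symm_apply, hq.comm, hq.zero] at h2
  exact h2

theorem aut_card {m : Fin (r+1) → Fin (r+1) → Fin (r+1)} (h : IsMul m) :
    Nat.card {e : P0 r // ∀ a b, e.1 (m a b) = m (e.1 a) (e.1 b)} ≤ r ^ Nat.log 2 r := by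
  classical
  obtain ⟨S, hS, hc⟩ := exists_gen (Gp h)
  have hcard : Nat.card (Gp h) = r := by rw [Nat.card_eq_fintype_card, card_Gp]
  rw [hcard] at hc
  have hr : r ≠ 0 := by
    have : 0 < 2 ^ S.card := by positivity
    omega
  have hlog : S.card ≤ Nat.log 2 r := Nat.le_log_of_pow_le (by norm_num) hc
  let F : {e : P0 r // ∀ a b, e.1 (m a b) = m (e.1 a) (e.1 b)} → (Gp h →* Gp h) := fun e =>
    { toFun := fun x => ⟨e.1.1 x.1, fun h0 => x.2 (e.1.1.injective (h0.trans e.1.2.symm))⟩
      map_one' := by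
        have h1 : ∀ y : Gp h, y * y = y → y = 1 := fun y hy => mul_eq_left.1 hy
        apply h1
        apply Subtype.ext
        change m (e.1.1 (1 : Gp h).1) (e.1.1 (1 : Gp h).1) = e.1.1 (1 : Gp h).1
        rw [← e.2, ← mul_val h 1 1, one_mul]
      map_mul' := fun x y => Subtype.ext (e.2 x.1 y.1) }
  have hFinj : Function.Injective F := by
    intro e e' hee
    apply Subtype.ext
    apply Subtype.ext
    apply Equiv.ext
    intro a
    rcases cases0 h a with rfl | ⟨x, rfl⟩
    · rw [e.1.2, e'.1.2]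
    · exact congrArg Subtype.val (DFunLike.congr_fun hee x)
  let R : (Gp h →* Gp h) → (S → Gp h) := fun φ s => φ s.1
  have hR : Function.Injective R := by
    intro φ ψ hφψ
    refine MonoidHom.eq_of_eqOn_dense hS ?_
    intro s hs
    exact congrFun hφψ ⟨s, hs⟩
  calc Nat.card {e : P0 r // ∀ a b, e.1 (m a b) = m (e.1 a) (e.1 b)} ≤ Nat.card (S → Gp h) :=
        Nat.card_le_card_of_injective _ (hR.comp hFinj)
    _ = r ^ S.card := by
        rw [Nat.card_fun, hcard]
        simp
    _ ≤ r ^ Nat.log 2 r := Nat.pow_le_pow_right (Nat.pos_of_ne_zero hr) hlog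

open Classical in
theorem fib_card {p : Str r} (hp : IsMul p.1) (q : Str r) :
    (Finset.univ.filter fun e : P0 r => act e.1 p = q).card ≤ r ^ Nat.log 2 r := by
  by_cases hex : ∃ e' : P0 r, act e'.1 p = q
  · obtain ⟨e', he'⟩ := hex
    refine le_trans ?_ (aut_card hp)
    rw [← Fintype.card_subtype, ← Nat.card_eq_fintype_card]
    refine Nat.card_le_card_of_injective
      (fun e : {e : P0 r // act e.1 p = q} => (⟨⟨e.1.1.trans e'.1.symm, ?_⟩, ?_⟩ :
        {e : P0 r // ∀ a b, e.1 (p.1 a b) = p.1 (e.1 a) (e.1 b)})) ?_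
    · rw [Equiv.trans_apply, e.1.2, Equiv.symm_apply_eq, e'.2]
    · intro a b
      have h1 := ((act_iff _ _ _).2 e.2 a b).1
      have h2 := ((act_iff _ _ _).2 he' (e'.1.symm (e.1.1 a)) (e'.1.symm (e.1.1 b))).1
      rw [e'.1.apply_symm_apply, e'.1.apply_symm_apply, ← h1] at h2
      change e'.1.symm (e.1.1 (p.1 a b)) = p.1 (e'.1.symm (e.1.1 a)) (e'.1.symm (e.1.1 b))
      rw [← h2, e'.1.symm_apply_apply]
    · intro e₁ e₂ h12
      have h3 := congrArg (fun w => w.1.1) h12
      apply Subtype.ext
      apply Subtype.ext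
      apply Equiv.ext
      intro a
      have h4 := DFunLike.congr_fun h3 a
      exact e'.1.symm.injective h4
  · have : (Finset.univ.filter fun e : P0 r => act e.1 p = q) = ∅ :=
      Finset.filter_eq_empty_iff.2 fun e _ he => hex ⟨e, he⟩
    rw [this]
    simp

/-- the relation of isomorphism -/
def isoSetoid (r : ℕ) : Setoid (Str r) where
  r := Iso
  iseqv := ⟨Iso.refl, Iso.symm, Iso.trans⟩

/-- classes -/
def Cl (r : ℕ) : Type := Quotient (isoSetoid r)

/-- the class of a structure -/
def cls (p : Str r) : Cl r := Quotient.mk (isoSetoid r) p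

theorem cls_eq {p q : Str r} : cls p = cls q ↔ Iso p q :=
  ⟨fun h => Quotient.exact h, fun h => Quotient.sound h⟩

theorem cls_surj (c : Cl r) : ∃ p : Str r, cls p = c := Quotient.exists_rep c

noncomputable instance : DecidableEq (Cl r) := Classical.decEq _

open Classical in
/-- number of classes in an invariant set -/
theorem classes_le (B : Finset (Str r)) (hB : ∀ p ∈ B, IsMul p.1) (hinv : ∀ p ∈ B, ∀ e : P0 r, act e.1 p ∈ B) :
    (B.image cls).card * Fintype.card (P0 r) ≤ r ^ Nat.log 2 r * B.card := by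
  have hrep : ∀ c ∈ B.image cls, ∃ p ∈ B, cls p = c := fun c hc => Finset.mem_image.1 hc
  choose! rep hrep1 hrep2 using hrep
  have h1 : ((B.image cls) ×ˢ (Finset.univ : Finset (P0 r))).card = (B.image cls).card * Fintype.card (P0 r) := by
    rw [Finset.card_product, Finset.card_univ]
  rw [← h1]
  refine Finset.card_le_mul_card_image_of_maps_to (f := fun x : Cl r × P0 r => act x.2.1 (rep x.1)) (t := B) ?_ _ ?_
  · rintro ⟨c, e⟩ hx
    exact hinv _ (hrep1 c (Finset.mem_product.1 hx).1) e
  · intro q hq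
    refine le_trans ?_ (fib_card (hB _ (hrep1 (cls q) (Finset.mem_image_of_mem _ hq))) q)
    refine Finset.card_le_card_of_injOn (fun x => x.2) ?_ ?_
    · rintro ⟨c, e⟩ hx
      obtain ⟨hx1, hx2⟩ := Finset.mem_filter.1 (Finset.mem_coe.1 hx)
      refine Finset.mem_coe.2 (Finset.mem_filter.2 ⟨Finset.mem_univ _, ?_⟩)
      have hc : c = cls q := by
        rw [← hrep2 c (Finset.mem_product.1 hx1).1, cls_eq, iso_iff]
        exact ⟨e.1, hx2⟩
      rw [← hc]
      exact hx2
    · rintro ⟨c, e⟩ hx ⟨c', e'⟩ hx' hee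
      obtain ⟨hx1, hx2⟩ := Finset.mem_filter.1 (Finset.mem_coe.1 hx)
      obtain ⟨hx1', hx2'⟩ := Finset.mem_filter.1 (Finset.mem_coe.1 hx')
      have hc : c = cls q := by
        rw [← hrep2 c (Finset.mem_product.1 hx1).1, cls_eq, iso_iff]
        exact ⟨e.1, hx2⟩
      have hc' : c' = cls q := by
        rw [← hrep2 c' (Finset.mem_product.1 hx1').1, cls_eq, iso_iff]
        exact ⟨e'.1, hx2'⟩
      exact Prod.ext (hc.trans hc'.symm) hee

open Classical in
/-- number of structures -/
theorem card_le_classes (B : Finset (Str r)) (hB : ∀ p ∈ B, IsMul p.1) :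
    B.card ≤ Fintype.card (P0 r) * (B.image cls).card := by
  refine Finset.card_le_mul_card_image _ _ fun c hc => ?_
  obtain ⟨p, hp, rfl⟩ := Finset.mem_image.1 hc
  have h1 : (B.filter fun q => cls q = cls p) ⊆ (Finset.univ : Finset (P0 r)).image (fun e => act e.1 p) := by
    intro q hq
    obtain ⟨hq1, hq2⟩ := Finset.mem_filter.1 hq
    obtain ⟨e, he⟩ := (iso_iff _ _).1 (cls_eq.1 hq2.symm)
    exact Finset.mem_image.2 ⟨⟨e, act_zero (hB p hp) (hB q hq1) he⟩, Finset.mem_univ _, he⟩
  refine (Finset.card_le_card h1).trans (Finset.card_image_le.trans ?_)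
  rw [Finset.card_univ]

open Classical in
/-- number of structures with the same multiplication -/
theorem card_le_classes' (B : Finset (Str r)) {m : Fin (r+1) → Fin (r+1) → Fin (r+1)} (hm : IsMul m)
    (hB : ∀ p ∈ B, p.1 = m) : B.card ≤ r ^ Nat.log 2 r * (B.image cls).card := by
  refine Finset.card_le_mul_card_image _ _ fun c hc => ?_
  obtain ⟨p, hp, rfl⟩ := Finset.mem_image.1 hc
  have h1 : (B.filter fun q => cls q = cls p) ⊆
      ((Finset.univ : Finset (P0 r)).filter fun e => ∀ a b, e.1 (m a b) = m (e.1 a) (e.1 b)).image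
        (fun e => act e.1 p) := by
    intro q hq
    obtain ⟨hq1, hq2⟩ := Finset.mem_filter.1 hq
    obtain ⟨e, he⟩ := (iso_iff _ _).1 (cls_eq.1 hq2.symm)
    refine Finset.mem_image.2 ⟨⟨e, act_zero (by rw [hB p hp]; exact hm) (by rw [hB q hq1]; exact hm) he⟩,
      Finset.mem_filter.2 ⟨Finset.mem_univ _, fun a b => ?_⟩, he⟩
    have h2 := ((act_iff _ _ _).2 he a b).1
    rw [hB p hp, hB q hq1] at h2
    exact h2
  refine (Finset.card_le_card h1).trans (Finset.card_image_le.trans ?_)
  have h3 := aut_card hm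
  rw [Nat.card_eq_fintype_card, Fintype.card_subtype] at h3
  exact h3

end Pool.Agent.N206.HF
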