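import Mathlib

set_option autoImplicit false
set_option linter.unusedSectionVars false

namespace Pool.Agent.N206.HF

open Finset

section

variable {K : Type} [Field K] [Fintype K] [DecidableEq K]

/-- indicator -/
def chi (S : Finset K) (x : K) : ℤ := if x ∈ S then 1 else 0

theorem sum_chi (S : Finset K) : ∑ x, chi S x = S.card := by
  simp [chi]

theorem sum_chi_shift (S : Finset K) (d : K) : ∑ c, chi S (d + c) = S.card := by
  rw [← sum_chi S]
  exact Fintype.sum_equiv (Equiv.addLeft d) _ _ fun c => rfl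

/-- autocorrelation -/
def corr (S : Finset K) (d : K) : ℤ := ∑ c, chi S c * chi S (c + d)

theorem corr_zero (S : Finset K) : corr S 0 = S.card := by
  rw [← sum_chi S]
  refine Finset.sum_congr rfl fun c _ => ?_
  rw [add_zero, chi]
  split_ifs <;> rfl

theorem sum_corr (S : Finset K) : ∑ d, corr S d = (S.card : ℤ) ^ 2 := by
  unfold corr
  rw [Finset.sum_comm]
  have : ∀ c : K, ∑ d, chi S c * chi S (c + d) = chi S c * S.card := by
    intro c
    rw [← Finset.mul_sum, sum_chi_shift]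
  simp only [this]
  rw [← Finset.sum_mul, sum_chi, sq]

theorem sum_corr_mul (S : Finset K) (e : K) (he : e ≠ 0) :
    ∑ m ∈ Finset.univ.erase (0 : K), corr S (m * e) = (S.card : ℤ) ^ 2 - S.card := by
  have h1 : ∑ m : K, corr S (m * e) = (S.card : ℤ) ^ 2 := by
    rw [← sum_corr S]
    exact Fintype.sum_equiv (Equiv.mulRight₀ e he) _ _ fun c => rfl
  have h2 := Finset.add_sum_erase Finset.univ (fun m : K => corr S (m * e)) (Finset.mem_univ 0)
  simp only [zero_mul, corr_zero] at h2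
  linarith

/-- number of `g` in `S` with `m g + c` in `S` -/
def num (S : Finset K) (m c : K) : ℤ := ∑ g ∈ S, chi S (m * g + c)

theorem S1 (S : Finset K) :
    ∑ m ∈ Finset.univ.erase (0 : K), ∑ c, num S m c = ((Fintype.card K : ℤ) - 1) * (S.card : ℤ) ^ 2 := by
  have : ∀ m : K, ∑ c, num S m c = (S.card : ℤ) ^ 2 := by
    intro m
    unfold num
    rw [Finset.sum_comm]
    simp only [sum_chi_shift]
    simp [sq]
  simp only [this]
  rw [Finset.sum_const, Finset.card_erase_of_mem (Finset.mem_univ 0), Finset.card_univ, nsmul_eq_mul,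
    Nat.cast_sub Fintype.card_pos]
  simp

theorem S2 (S : Finset K) :
    ∑ m ∈ Finset.univ.erase (0 : K), ∑ c, (num S m c) ^ 2 =
      ((Fintype.card K : ℤ) - 1) * (S.card : ℤ) ^ 2 +
        (S.card : ℤ) * ((S.card : ℤ) - 1) * ((S.card : ℤ) ^ 2 - S.card) := by
  have h1 : ∀ m c : K, (num S m c) ^ 2 = ∑ g ∈ S, ∑ g' ∈ S, chi S (m * g + c) * chi S (m * g' + c) := by
    intro m c
    rw [sq, num, Finset.sum_mul_sum]
  have h2 : ∀ m g g' : K, ∑ c, chi S (m * g + c) * chi S (m * g' + c) = corr S (m * (g' - g)) := by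
    intro m g g'
    unfold corr
    refine Fintype.sum_equiv (Equiv.addLeft (m * g)) _ _ fun c => ?_
    simp only [Equiv.coe_addLeft]
    congr 2
    ring
  have h3 : ∀ m : K, ∑ c, (num S m c) ^ 2 = ∑ g ∈ S, ∑ g' ∈ S, corr S (m * (g' - g)) := by
    intro m
    simp only [h1]
    rw [Finset.sum_comm]
    refine Finset.sum_congr rfl fun g _ => ?_
    rw [Finset.sum_comm]
    refine Finset.sum_congr rfl fun g' _ => ?_
    exact h2 m g g'
  simp only [h3]
  rw [Finset.sum_comm]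
  have h4 : ∀ g ∈ S, ∑ m ∈ Finset.univ.erase (0 : K), ∑ g' ∈ S, corr S (m * (g' - g)) =
      ((Fintype.card K : ℤ) - 1) * S.card + ((S.card : ℤ) - 1) * ((S.card : ℤ) ^ 2 - S.card) := by
    intro g hg
    rw [Finset.sum_comm, ← Finset.add_sum_erase S _ hg]
    congr 1
    · simp only [sub_self, mul_zero, corr_zero]
      rw [Finset.sum_const, Finset.card_erase_of_mem (Finset.mem_univ 0), Finset.card_univ, nsmul_eq_mul,
        Nat.cast_sub Fintype.card_pos]
      simp
    · rw [Finset.sum_congr rfl fun g' hg' => sum_corr_mul S (g' - g) (sub_ne_zero.2 (Finset.ne_of_mem_erase hg'))]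
      rw [Finset.sum_const, Finset.card_erase_of_mem hg, nsmul_eq_mul,
        Nat.cast_sub (Finset.card_pos.2 ⟨g, hg⟩)]
      simp
  rw [Finset.sum_congr rfl h4, Finset.sum_const, nsmul_eq_mul]
  ring

theorem variance (S : Finset K) :
    ∑ m ∈ Finset.univ.erase (0 : K), ∑ c, ((Fintype.card K : ℤ) * num S m c - (S.card : ℤ) ^ 2) ^ 2 =
      (S.card : ℤ) ^ 2 * (Fintype.card K) * ((Fintype.card K : ℤ) - S.card) ^ 2 := by
  have h1 : ∀ m c : K, ((Fintype.card K : ℤ) * num S m c - (S.card : ℤ) ^ 2) ^ 2 =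
      (Fintype.card K : ℤ) ^ 2 * (num S m c) ^ 2 - 2 * (Fintype.card K) * (S.card : ℤ) ^ 2 * num S m c +
        (S.card : ℤ) ^ 4 := by
    intro m c
    ring
  simp only [h1, Finset.sum_add_distrib, Finset.sum_sub_distrib, ← Finset.mul_sum]
  rw [S1, S2]
  have h2 : ∑ m ∈ Finset.univ.erase (0 : K), ∑ c : K, (S.card : ℤ) ^ 4 =
      ((Fintype.card K : ℤ) - 1) * (Fintype.card K) * (S.card : ℤ) ^ 4 := by
    simp only [Finset.sum_const, nsmul_eq_mul, Finset.card_univ]
    rw [Finset.card_erase_of_mem (Finset.mem_univ 0), Finset.card_univ, Nat.cast_sub Fintype.card_pos]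
    push_cast
    ring
  rw [h2]
  ring

/-- if `a S` contains no difference of elements of `S`, then `S` is small -/
theorem small_of_no_diff (S : Finset K) (hmul : ∀ x ∈ S, ∀ y ∈ S, x * y ∈ S) (a : K) (ha : a ≠ 0)
    (h0 : (0 : K) ∉ S) (hno : ∀ h ∈ S, ∀ g ∈ S, ∀ k ∈ S, h - g ≠ a * k) :
    (S.card : ℤ) ^ 6 ≤ (S.card : ℤ) ^ 2 * (Fintype.card K) * ((Fintype.card K : ℤ) - S.card) ^ 2 := by
  rw [← variance S]
  set M : Finset K := S.image (fun k => -(a * k)) with hM
  have hMc : M.card = S.card := by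
    rw [hM, Finset.card_image_of_injective]
    intro x y hxy
    have : a * x = a * y := neg_injective hxy
    exact mul_left_cancel₀ ha this
  have hMs : M ⊆ Finset.univ.erase (0 : K) := by
    intro m hm
    obtain ⟨k, hk, rfl⟩ := Finset.mem_image.1 hm
    refine Finset.mem_erase.2 ⟨?_, Finset.mem_univ _⟩
    refine neg_ne_zero.2 (mul_ne_zero ha ?_)
    rintro rfl
    exact h0 hk
  calc (S.card : ℤ) ^ 6 = ∑ m ∈ M, ∑ c ∈ S, (S.card : ℤ) ^ 4 := by
        simp only [Finset.sum_const, nsmul_eq_mul, hMc]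
        ring
    _ = ∑ m ∈ M, ∑ c ∈ S, ((Fintype.card K : ℤ) * num S m c - (S.card : ℤ) ^ 2) ^ 2 := by
        refine Finset.sum_congr rfl fun m hm => Finset.sum_congr rfl fun c hc => ?_
        obtain ⟨k, hk, rfl⟩ := Finset.mem_image.1 hm
        have : num S (-(a * k)) c = 0 := by
          unfold num
          refine Finset.sum_eq_zero fun g hg => ?_
          rw [chi, if_neg]
          intro h1
          refine hno c hc _ h1 (k * g) (hmul k hk g hg) ?_
          ring
        rw [this]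
        ring
    _ ≤ ∑ m ∈ M, ∑ c, ((Fintype.card K : ℤ) * num S m c - (S.card : ℤ) ^ 2) ^ 2 := by
        refine Finset.sum_le_sum fun m _ => ?_
        exact Finset.sum_le_sum_of_subset_of_nonneg (Finset.subset_univ S) fun c _ _ => sq_nonneg _
    _ ≤ _ := by
        refine Finset.sum_le_sum_of_subset_of_nonneg hMs fun m _ _ => ?_
        exact Finset.sum_nonneg fun c _ => sq_nonneg _

end

/-- In a finite field with more than `8 r ^ 4 + 1` elements and a subgroup `G` with `|K| = r |G| + 1`. -/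
theorem diff_of_finite {K : Type} [Field K] [Finite K] {r : ℕ} (G : Subgroup Kˣ)
    (hG : Nat.card K = r * Nat.card G + 1) (hK : 8 * r ^ 4 + 1 < Nat.card K) (a : K) (ha : a ≠ 0) :
    ∃ h ∈ G, ∃ g ∈ G, (h : K) - 1 = a * (g : K) := by
  classical
  have := Fintype.ofFinite K
  by_contra hcon
  push Not at hcon
  set S : Finset K := Finset.univ.filter (fun x => ∃ g ∈ G, (g : K) = x) with hS
  have hmem : ∀ x, x ∈ S ↔ ∃ g ∈ G, (g : K) = x := fun x => by simp [hS]
  have hcard : S.card = Nat.card G := by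
    have h1 : (S : Set K) = Set.range (fun g : G => (((g : Kˣ)) : K)) := by
      ext x
      rw [Finset.mem_coe, hmem, Set.mem_range]
      constructor
      · rintro ⟨g, hg, rfl⟩
        exact ⟨(⟨g, hg⟩ : G), rfl⟩
      · rintro ⟨g, rfl⟩
        exact ⟨g.1, g.2, rfl⟩
    rw [← Set.ncard_coe_finset, h1, ← Nat.card_coe_set_eq]
    refine Nat.card_congr (Equiv.ofInjective _ ?_).symm
    intro x y hxy
    exact Subtype.ext (Units.ext hxy)
  have h6 := small_of_no_diff S (fun x hx y hy => by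
    obtain ⟨g, hg, rfl⟩ := (hmem x).1 hx
    obtain ⟨h, hh, rfl⟩ := (hmem y).1 hy
    exact (hmem _).2 ⟨g * h, G.mul_mem hg hh, by simp⟩) a ha (fun h => by
    obtain ⟨g, hg, h2⟩ := (hmem _).1 h
    exact g.ne_zero h2) (fun h hh g hg k hk heq => by
    obtain ⟨h, hh', rfl⟩ := (hmem h).1 hh
    obtain ⟨g, hg', rfl⟩ := (hmem g).1 hg
    obtain ⟨k, hk', rfl⟩ := (hmem k).1 hk
    refine hcon (h * g⁻¹) (G.mul_mem hh' (G.inv_mem hg')) (k * g⁻¹) (G.mul_mem hk' (G.inv_mem hg')) ?_
    have hg0 : (g : K) ≠ 0 := g.ne_zero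
    rw [Units.val_mul, Units.val_mul, Units.val_inv_eq_inv_val]
    field_simp
    linear_combination heq)
  rw [hcard] at h6
  have hq : Fintype.card K = r * Nat.card G + 1 := by rw [← hG, Nat.card_eq_fintype_card]
  rw [Nat.card_eq_fintype_card, hq] at hK
  set s : ℕ := Nat.card G with hs
  rw [hq] at h6
  have hs0 : 0 < s := Nat.card_pos
  have hr0 : 0 < r := by
    rcases Nat.eq_zero_or_pos r with h | h
    · subst h; simp at hK
    · exact h
  have h7 : (s : ℤ) ^ 4 ≤ ((r * s + 1 : ℕ) : ℤ) * (((r * s + 1 : ℕ) : ℤ) - s) ^ 2 := by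
    have hsZ : (0 : ℤ) < (s : ℤ) ^ 2 := by positivity
    nlinarith [h6, hsZ]
  have h8 : (s : ℤ) ^ 4 ≤ ((r * s + 1 : ℕ) : ℤ) ^ 3 := by
    refine h7.trans ?_
    have h9 : (((r * s + 1 : ℕ) : ℤ) - s) ^ 2 ≤ ((r * s + 1 : ℕ) : ℤ) ^ 2 := by
      have hsr : (s : ℤ) ≤ ((r * s + 1 : ℕ) : ℤ) := by
        push_cast
        have : (1 : ℤ) ≤ r := by exact_mod_cast hr0
        have h2 : (0 : ℤ) < s := by exact_mod_cast hs0
        nlinarith
      have h2 : (0 : ℤ) < s := by exact_mod_cast hs0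
      exact pow_le_pow_left₀ (by linarith) (by linarith) 2
    calc ((r * s + 1 : ℕ) : ℤ) * (((r * s + 1 : ℕ) : ℤ) - s) ^ 2 ≤ ((r * s + 1 : ℕ) : ℤ) * ((r * s + 1 : ℕ) : ℤ) ^ 2 :=
          mul_le_mul_of_nonneg_left h9 (by positivity)
      _ = _ := by ring
  have h9 : s ^ 4 ≤ (r * s + 1) ^ 3 := by exact_mod_cast h8
  have h10 : (r * s + 1) ^ 3 ≤ (2 * (r * s)) ^ 3 := by
    refine Nat.pow_le_pow_left ?_ 3
    have : 1 ≤ r * s := Nat.mul_pos hr0 hs0
    omega
  have h11 : s * s ^ 3 ≤ 8 * r ^ 3 * s ^ 3 := by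
    calc s * s ^ 3 = s ^ 4 := by ring
      _ ≤ (2 * (r * s)) ^ 3 := h9.trans h10
      _ = _ := by ring
  have h12 : s ≤ 8 * r ^ 3 := Nat.le_of_mul_le_mul_right h11 (by positivity)
  have h13 : r * s ≤ 8 * r ^ 4 := by
    calc r * s ≤ r * (8 * r ^ 3) := Nat.mul_le_mul_left r h12
      _ = _ := by ring
  omega

end Pool.Agent.N206.HF
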