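import Mathlib

set_option autoImplicit false

namespace Pool.Agent.N206.HF

open Finset

/-- in an infinite field there are sequences with nonzero subset sums -/
theorem exists_sums (K : Type) [Field K] [Infinite K] (ι : Type) [Fintype ι] :
    ∃ t : ι → K, ∀ S : Finset ι, S.Nonempty → ∑ i ∈ S, t i ≠ 0 := by
  classical
  have key : ∀ s : Finset ι, ∃ t : ι → K, ∀ S : Finset ι, S ⊆ s → S.Nonempty → ∑ i ∈ S, t i ≠ 0 := by
    intro s
    induction s using Finset.induction_on with
    | empty =>
      refine ⟨fun _ => 0, fun S hS hne => ?_⟩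
      rw [Finset.subset_empty.1 hS] at hne
      exact absurd hne (by simp)
    | insert a s ha ih =>
      obtain ⟨t, ht⟩ := ih
      obtain ⟨u, hu⟩ := Infinite.exists_notMem_finset (s.powerset.image fun S => -∑ i ∈ S, t i)
      refine ⟨Function.update t a u, fun S hS hne => ?_⟩
      by_cases haS : a ∈ S
      · rw [← Finset.insert_erase haS, Finset.sum_insert (Finset.notMem_erase a S)]
        rw [Function.update_self]
        have h1 : ∑ i ∈ S.erase a, Function.update t a u i = ∑ i ∈ S.erase a, t i := by
          refine Finset.sum_congr rfl fun i hi => ?_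
          rw [Function.update_of_ne (Finset.ne_of_mem_erase hi)]
        rw [h1]
        intro h0
        apply hu
        refine Finset.mem_image.2 ⟨S.erase a, ?_, ?_⟩
        · rw [Finset.mem_powerset]
          intro i hi
          have := hS (Finset.mem_of_mem_erase hi)
          rcases Finset.mem_insert.1 this with h | h
          · exact absurd h (Finset.ne_of_mem_erase hi)
          · exact h
        · linear_combination -h0
      · have h1 : ∑ i ∈ S, Function.update t a u i = ∑ i ∈ S, t i := by
          refine Finset.sum_congr rfl fun i hi => ?_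
          rw [Function.update_of_ne]
          rintro rfl
          exact haS hi
        rw [h1]
        refine ht S (fun i hi => ?_) hne
        rcases Finset.mem_insert.1 (hS hi) with h | h
        · subst h; exact absurd hi haS
        · exact h
  obtain ⟨t, ht⟩ := key Finset.univ
  exact ⟨t, fun S hS => ht S (Finset.subset_univ S) hS⟩

/-- In an infinite field with a subgroup of finite index: every element is, up to the subgroup, a difference of two
elements of the subgroup. -/
theorem diff_of_infinite {K : Type} [Field K] [Infinite K] {n : ℕ} (G : Subgroup Kˣ) (f : K → Fin (n + 1))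
    (hs : Function.Surjective f) (hf : ∀ x y : K, f x = f y ↔ ∃ g ∈ G, y = x * (g : K)) (a : K) (ha : a ≠ 0) :
    ∃ h ∈ G, ∃ g ∈ G, (h : K) - 1 = a * (g : K) := by
  classical
  obtain ⟨σ, hσ⟩ := hs.hasRightInverse
  obtain ⟨ι, hι, H⟩ := Combinatorics.Line.exists_mono_in_high_dimension (Fin (n + 1)) (Fin (n + 1))
  obtain ⟨t, ht⟩ := exists_sums K ι
  obtain ⟨l, c, hl⟩ := H fun v => f (∑ i, t i * (a * σ (v i)))
  obtain ⟨i₀, hi₀⟩ := l.proper
  set z : K := ∑ i ∈ Finset.univ.filter (fun i => l.idxFun i = none), t i with hz
  have hz0 : z ≠ 0 := ht _ ⟨i₀, by simp [hi₀]⟩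
  set y : K := ∑ i ∈ Finset.univ.filter (fun i => ¬ l.idxFun i = none), t i * (a * σ ((l.idxFun i).getD 0)) with hy
  have hsum : ∀ x, ∑ i, t i * (a * σ (l x i)) = z * (a * σ x) + y := by
    intro x
    rw [← Finset.sum_filter_add_sum_filter_not Finset.univ (fun i => l.idxFun i = none)]
    congr 1
    · rw [hz, Finset.sum_mul]
      refine Finset.sum_congr rfl fun i hi => ?_
      rw [Combinatorics.Line.coe_apply, (Finset.mem_filter.1 hi).2]
      rfl
    · refine Finset.sum_congr rfl fun i hi => ?_
      rw [Combinatorics.Line.coe_apply]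
      obtain ⟨b, hb⟩ := Option.ne_none_iff_exists'.1 (Finset.mem_filter.1 hi).2
      rw [hb]
      rfl
  have hl' : ∀ x, f (z * (a * σ x) + y) = c := fun x => by
    have := hl x
    simp only [hsum] at this
    exact this
  have h0 : ∀ w : K, f w = f 0 ↔ w = 0 := by
    intro w
    constructor
    · intro h
      obtain ⟨g, hg, h2⟩ := (hf 0 w).1 h.symm
      rw [zero_mul] at h2
      exact h2
    · rintro rfl
      rfl
  -- sigma of f 0 is zero
  have hσ0 : σ (f 0) = 0 := (h0 _).1 (hσ (f 0))
  have hyc : f y = c := by
    have := hl' (f 0)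
    rw [hσ0, mul_zero, mul_zero, zero_add] at this
    exact this
  have hy0 : y ≠ 0 := by
    intro hy0
    have h1 := hl' (f 1)
    rw [hy0, add_zero, ← hyc, hy0, h0] at h1
    have h2 : σ (f 1) ≠ 0 := by
      intro h3
      have := hσ (f 1)
      rw [h3] at this
      exact one_ne_zero ((h0 1).1 this.symm)
    exact (mul_ne_zero hz0 (mul_ne_zero ha h2)) h1
  -- choose x = f (y / z)
  have h1 := hσ (f (y / z))
  obtain ⟨g, hg, h2⟩ := (hf _ _).1 h1.symm
  have h3 := hl' (f (y / z))
  rw [← hyc] at h3
  obtain ⟨h, hh, h4⟩ := (hf _ _).1 h3.symm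
  refine ⟨h, hh, g, hg, ?_⟩
  have h5 : z * (a * σ (f (y / z))) = y * (a * (g : K)) := by
    rw [h2]
    field_simp
  rw [h5] at h4
  have h6 : y * ((h : K) - 1) = y * (a * (g : K)) := by linear_combination -h4
  exact mul_left_cancel₀ hy0 h6

end Pool.Agent.N206.HF
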