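import Mathlib
import Pool.Agent.N206.HF.Cls
import Pool.Agent.N206.HF.Inf
import Pool.Agent.N206.HF.FinF

set_option autoImplicit false
set_option linter.unusedSectionVars false

namespace Pool.Agent.N206.HF

open Finset

variable {r : ℕ}

/-- being a quotient of a field -/
def Quo (p : Str r) : Prop := ∃ (K : Type) (_ : Field K), ∃ G : Subgroup Kˣ, ∃ f : K → Fin (r+1), IsQ K G f p

/-- the case of large fields -/
def QuoB (p : Str r) : Prop := ∃ (K : Type) (_ : Field K), ∃ G : Subgroup Kˣ, ∃ f : K → Fin (r+1), IsQ K G f p ∧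
  ∀ a : K, a ≠ 0 → ∃ h ∈ G, ∃ g ∈ G, (h : K) - 1 = a * (g : K)

/-- the case of small fields -/
def QuoS (p : Str r) : Prop := ∃ (K : Type) (_ : Field K), ∃ G : Subgroup Kˣ, ∃ f : K → Fin (r+1), IsQ K G f p ∧
  Finite K ∧ Nat.card K ≤ 8 * r ^ 4 + 1

theorem quo_cases {p : Str r} (h : Quo p) : QuoB p ∨ QuoS p := by
  obtain ⟨K, hK, G, f, h⟩ := h
  rcases finite_or_infinite K with hfin | hinf
  · by_cases hc : Nat.card K ≤ 8 * r ^ 4 + 1
    · exact Or.inr ⟨K, hK, G, f, h, hfin, hc⟩
    · exact Or.inl ⟨K, hK, G, f, h, fun a ha => diff_of_finite G h.card_eq (not_le.1 hc) a ha⟩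
  · exact Or.inl ⟨K, hK, G, f, h, fun a ha => diff_of_infinite G f h.1 h.2.2.1 a ha⟩

open Classical in
/-- the number of classes from small fields -/
theorem small_classes : ((Finset.univ.filter fun p : Str r => QuoS p).image cls).card ≤ 8 * r ^ 4 + 2 := by
  have hrep : ∀ c ∈ (Finset.univ.filter fun p : Str r => QuoS p).image cls, ∃ p, QuoS p ∧ cls p = c := by
    intro c hc
    obtain ⟨p, hp, rfl⟩ := Finset.mem_image.1 hc
    exact ⟨p, (Finset.mem_filter.1 hp).2, rfl⟩
  choose! rep hrep1 hrep2 using hrep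
  have hq : ∀ c ∈ (Finset.univ.filter fun p : Str r => QuoS p).image cls, ∃ q : ℕ, q < 8 * r ^ 4 + 2 ∧
      ∃ (K : Type) (_ : Field K), ∃ G : Subgroup Kˣ, ∃ f : K → Fin (r+1), IsQ K G f (rep c) ∧ Finite K ∧
        Nat.card K = q := by
    intro c hc
    obtain ⟨K, hK, G, f, h1, h2, h3⟩ := hrep1 c hc
    exact ⟨Nat.card K, by omega, K, hK, G, f, h1, h2, rfl⟩
  choose! qq hq1 hq2 using hq
  have h1 := Finset.card_le_card_of_injOn (s := (Finset.univ.filter fun p : Str r => QuoS p).image cls)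
    (t := Finset.range (8 * r ^ 4 + 2)) qq (fun c hc => Finset.mem_coe.2 (Finset.mem_range.2 (hq1 c (Finset.mem_coe.1 hc))))
    (by
      intro c hc c' hc' hcc
      obtain ⟨K, hK, G, f, h1, h2, h3⟩ := hq2 c (Finset.mem_coe.1 hc)
      obtain ⟨K', hK', G', f', h1', h2', h3'⟩ := hq2 c' (Finset.mem_coe.1 hc')
      rw [← hrep2 c (Finset.mem_coe.1 hc), ← hrep2 c' (Finset.mem_coe.1 hc'), cls_eq]
      exact uniq h1 h1' (h3.trans (hcc.trans h3'.symm)))
  rw [Finset.card_range] at h1
  exact h1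

/-- transport of a quotient -/
theorem quoB_act {p : Str r} (h : QuoB p) (e : P0 r) : QuoB (act e.1 p) := by
  obtain ⟨K, hK, G, f, ⟨h1, h2, h3, h4, h5⟩, hd⟩ := h
  obtain ⟨e, he⟩ := e
  change QuoB (act e p)
  refine ⟨K, hK, G, fun x => e (f x), ⟨?_, ?_, ?_, ?_, ?_⟩, hd⟩
  · exact e.surjective.comp h1
  · change e (f 0) = 0
    rw [h2]; exact he
  · intro x y
    rw [← h3]
    exact e.injective.eq_iff
  · intro x y
    change e (f (x * y)) = (act e p).1 (e (f x)) (e (f y))
    rw [h4]
    simp [act]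
  · intro x y
    simp only [act, Equiv.symm_apply_apply]
    rw [h5]
    ext z
    constructor
    · rintro ⟨w, ⟨g, hg, k, hk, rfl⟩, rfl⟩
      exact ⟨g, hg, k, hk, rfl⟩
    · rintro ⟨g, hg, k, hk, rfl⟩
      exact ⟨_, ⟨g, hg, k, hk, rfl⟩, rfl⟩

section fixed

variable {m : Fin (r+1) → Fin (r+1) → Fin (r+1)} (h : IsMul m)

include h

open Classical in
theorem good_card (hr : 2 * r ^ 4 * 3 ^ (r / 12) ≤ 4 ^ (r / 12)) (ε : Gp h) :
    2 ^ Fintype.card (Orb (Gp h)) ≤ 2 * (Finset.univ.filter fun T : Finset (Orb (Gp h)) => Good ε T).card := by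
  have h1 := bad_card ε
  rw [card_Gp] at h1
  have h2 : (Finset.univ.filter fun T : Finset (Orb (Gp h)) => Good ε T).card +
      (Finset.univ.filter fun T : Finset (Orb (Gp h)) => ¬ Good ε T).card = 2 ^ Fintype.card (Orb (Gp h)) := by
    rw [Finset.card_filter_add_card_filter_not, Finset.card_univ, Fintype.card_finset]
  have h3 : 2 * (Finset.univ.filter fun T : Finset (Orb (Gp h)) => ¬ Good ε T).card ≤
      2 ^ Fintype.card (Orb (Gp h)) := by
    refine le_of_mul_le_mul_left (a := 4 ^ (r / 12)) ?_ ?_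
    · calc 4 ^ (r / 12) * (2 * (Finset.univ.filter fun T : Finset (Orb (Gp h)) => ¬ Good ε T).card)
          = 2 * (4 ^ (r / 12) * (Finset.univ.filter fun T : Finset (Orb (Gp h)) => ¬ Good ε T).card) := by ring
        _ ≤ 2 * (r ^ 4 * (3 ^ (r / 12) * 2 ^ Fintype.card (Orb (Gp h)))) := Nat.mul_le_mul_left _ h1
        _ = (2 * r ^ 4 * 3 ^ (r / 12)) * 2 ^ Fintype.card (Orb (Gp h)) := by ring
        _ ≤ 4 ^ (r / 12) * 2 ^ Fintype.card (Orb (Gp h)) := Nat.mul_le_mul_right _ hr
    · positivity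
  omega

open Classical in
/-- comparison for a fixed multiplication -/
theorem compare (hr : 2 * r ^ 4 * 3 ^ (r / 12) ≤ 4 ^ (r / 12)) :
    2 ^ (r / 3) * (Finset.univ.filter fun p : Str r => QuoB p ∧ p.1 = m).card ≤
      2 * (Finset.univ.filter fun p : Str r => IsH p ∧ p.1 = m).card := by
  set E : Finset (Gp h) := Finset.univ.filter fun ε => ε * ε = 1 with hE
  -- upper bound
  have h1 : (Finset.univ.filter fun p : Str r => QuoB p ∧ p.1 = m) ⊆
      E.biUnion fun ε => (Finset.univ.filter fun T : Finset (Orb (Gp h)) => Full ε T).image (build h ε) := by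
    intro p hp
    obtain ⟨⟨K, hK, G, f, hp1, hd⟩, rfl⟩ := (Finset.mem_filter.1 hp).2
    obtain ⟨h', ε, T, e1, e2, e3⟩ := exists_build hp1 hd
    refine Finset.mem_biUnion.2 ⟨ε, Finset.mem_filter.2 ⟨Finset.mem_univ _, e1⟩,
      Finset.mem_image.2 ⟨T, Finset.mem_filter.2 ⟨Finset.mem_univ _, e2⟩, e3.symm⟩⟩
  have h2 : 2 ^ (r / 3) * (Finset.univ.filter fun p : Str r => QuoB p ∧ p.1 = m).card ≤
      E.card * 2 ^ Fintype.card (Orb (Gp h)) := by
    calc 2 ^ (r / 3) * (Finset.univ.filter fun p : Str r => QuoB p ∧ p.1 = m).card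
        ≤ 2 ^ (r / 3) * ∑ ε ∈ E, (Finset.univ.filter fun T : Finset (Orb (Gp h)) => Full ε T).card := by
          refine Nat.mul_le_mul_left _ ((Finset.card_le_card h1).trans (Finset.card_biUnion_le.trans ?_))
          exact Finset.sum_le_sum fun ε _ => Finset.card_image_le
      _ = ∑ ε ∈ E, 2 ^ (r / 3) * (Finset.univ.filter fun T : Finset (Orb (Gp h)) => Full ε T).card :=
          Finset.mul_sum _ _ _
      _ ≤ ∑ ε ∈ E, 2 ^ Fintype.card (Orb (Gp h)) := by
          refine Finset.sum_le_sum fun ε _ => ?_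
          have := (full_card ε).1
          rw [card_Gp] at this
          exact this
      _ = _ := by rw [Finset.sum_const, smul_eq_mul]
  -- lower bound
  have h3 : (E.biUnion fun ε => (Finset.univ.filter fun T : Finset (Orb (Gp h)) => Good ε T).image (build h ε)) ⊆
      (Finset.univ.filter fun p : Str r => IsH p ∧ p.1 = m) := by
    intro p hp
    obtain ⟨ε, hε, hp⟩ := Finset.mem_biUnion.1 hp
    obtain ⟨T, hT, rfl⟩ := Finset.mem_image.1 hp
    exact Finset.mem_filter.2 ⟨Finset.mem_univ _, isH_build h (Finset.mem_filter.1 hε).2 (Finset.mem_filter.1 hT).2,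
      rfl⟩
  have h4 : E.card * 2 ^ Fintype.card (Orb (Gp h)) ≤
      2 * (Finset.univ.filter fun p : Str r => IsH p ∧ p.1 = m).card := by
    calc E.card * 2 ^ Fintype.card (Orb (Gp h)) = ∑ ε ∈ E, 2 ^ Fintype.card (Orb (Gp h)) := by
          rw [Finset.sum_const, smul_eq_mul]
      _ ≤ ∑ ε ∈ E, 2 * (Finset.univ.filter fun T : Finset (Orb (Gp h)) => Good ε T).card :=
          Finset.sum_le_sum fun ε _ => good_card h hr ε
      _ = 2 * ∑ ε ∈ E, ((Finset.univ.filter fun T : Finset (Orb (Gp h)) => Good ε T).image (build h ε)).card := by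
          rw [Finset.mul_sum]
          refine Finset.sum_congr rfl fun ε _ => ?_
          rw [Finset.card_image_of_injective]
          intro T T' hTT
          exact (build_inj h hTT).2
      _ = 2 * (E.biUnion fun ε =>
            (Finset.univ.filter fun T : Finset (Orb (Gp h)) => Good ε T).image (build h ε)).card := by
          rw [Finset.card_biUnion]
          intro ε _ ε' _ hne
          rw [Function.onFun, Finset.disjoint_left]
          intro p hp hp'
          obtain ⟨T, -, rfl⟩ := Finset.mem_image.1 hp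
          obtain ⟨T', -, hT'⟩ := Finset.mem_image.1 hp'
          exact hne (build_inj h hT'.symm).1
      _ ≤ _ := Nat.mul_le_mul_left _ (Finset.card_le_card h3)
  exact h2.trans h4

open Classical in
theorem many_hyperfields (hr : 2 * r ^ 4 * 3 ^ (r / 12) ≤ 4 ^ (r / 12)) :
    2 ^ (r / 3) ≤ 2 * (r ^ Nat.log 2 r * ((Finset.univ.filter fun p : Str r => IsH p).image cls).card) := by
  have h1 : ((Finset.univ.filter fun T : Finset (Orb (Gp h)) => Good (1 : Gp h) T).image (build h 1)) ⊆
      (Finset.univ.filter fun p : Str r => IsH p ∧ p.1 = m) := by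
    intro p hp
    obtain ⟨T, hT, rfl⟩ := Finset.mem_image.1 hp
    exact Finset.mem_filter.2 ⟨Finset.mem_univ _, isH_build h (one_mul 1) (Finset.mem_filter.1 hT).2, rfl⟩
  have h2 := (full_card (1 : Gp h)).2
  rw [card_Gp] at h2
  have h3 := card_le_classes' (Finset.univ.filter fun p : Str r => IsH p ∧ p.1 = m) h
    (fun p hp => (Finset.mem_filter.1 hp).2.2)
  have h4 : ((Finset.univ.filter fun p : Str r => IsH p ∧ p.1 = m).image cls).card ≤
      ((Finset.univ.filter fun p : Str r => IsH p).image cls).card := by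
    refine Finset.card_le_card (Finset.image_subset_image ?_)
    intro p hp
    exact Finset.mem_filter.2 ⟨Finset.mem_univ _, (Finset.mem_filter.1 hp).2.1⟩
  calc 2 ^ (r / 3) ≤ 2 ^ Fintype.card (Orb (Gp h)) := Nat.pow_le_pow_right (by norm_num) h2
    _ ≤ 2 * (Finset.univ.filter fun T : Finset (Orb (Gp h)) => Good (1 : Gp h) T).card := good_card h hr 1
    _ = 2 * ((Finset.univ.filter fun T : Finset (Orb (Gp h)) => Good (1 : Gp h) T).image (build h 1)).card := by
        rw [Finset.card_image_of_injective]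
        intro T T' hTT
        exact (build_inj h hTT).2
    _ ≤ 2 * (r ^ Nat.log 2 r * ((Finset.univ.filter fun p : Str r => IsH p).image cls).card) := by
        refine Nat.mul_le_mul_left _ ((Finset.card_le_card h1).trans (h3.trans ?_))
        exact Nat.mul_le_mul_left _ h4

end fixed

theorem IsH.isMul {p : Str r} (h : IsH p) : IsMul p.1 := by
  obtain ⟨h1, h2, h3, h4, h5, h6, _⟩ := h
  exact ⟨h1, h2, h3, h4, h5, h6⟩

open Classical in
theorem main_ineq (hr : 2 * r ^ 4 * 3 ^ (r / 12) ≤ 4 ^ (r / 12)) :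
    2 ^ (r / 3) * ((Finset.univ.filter fun p : Str r => Quo p).image cls).card ≤
      2 * r ^ Nat.log 2 r * (8 * r ^ 4 + 3) * ((Finset.univ.filter fun p : Str r => IsH p).image cls).card := by
  set Hr := ((Finset.univ.filter fun p : Str r => IsH p).image cls).card with hHr
  set L := r ^ Nat.log 2 r with hL
  -- large fields
  have hB : 2 ^ (r / 3) * (Finset.univ.filter fun p : Str r => QuoB p).card ≤
      2 * (Finset.univ.filter fun p : Str r => IsH p).card := by
    rw [Finset.card_eq_sum_card_fiberwise (f := fun p : Str r => p.1) (t := Finset.univ) (fun _ _ => Finset.mem_coe.2 (Finset.mem_univ _)),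
      Finset.card_eq_sum_card_fiberwise (s := Finset.univ.filter fun p : Str r => IsH p) (f := fun p : Str r => p.1) (t := Finset.univ) (fun _ _ => Finset.mem_coe.2 (Finset.mem_univ _)),
      Finset.mul_sum, Finset.mul_sum]
    refine Finset.sum_le_sum fun m _ => ?_
    rw [Finset.filter_filter, Finset.filter_filter]
    by_cases h : IsMul m
    · exact compare h hr
    · have h0 : (Finset.univ.filter fun p : Str r => QuoB p ∧ p.1 = m) = ∅ := by
        refine Finset.filter_eq_empty_iff.2 fun p _ hp => h ?_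
        obtain ⟨⟨K, hK, G, f, hp1, hd⟩, rfl⟩ := hp
        exact isMul_of_isQ hp1
      rw [h0]
      simp
  have hN : 0 < Fintype.card (P0 r) := Fintype.card_pos_iff.2 ⟨⟨1, rfl⟩⟩
  have hBc : 2 ^ (r / 3) * ((Finset.univ.filter fun p : Str r => QuoB p).image cls).card ≤ 2 * L * Hr := by
    have h1 := classes_le (Finset.univ.filter fun p : Str r => QuoB p) (fun p hp => by
      obtain ⟨K, hK, G, f, hp1, hd⟩ := (Finset.mem_filter.1 hp).2
      exact isMul_of_isQ hp1) (fun p hp e => Finset.mem_filter.2 ⟨Finset.mem_univ _,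
        quoB_act (Finset.mem_filter.1 hp).2 e⟩)
    have h2 := card_le_classes (Finset.univ.filter fun p : Str r => IsH p) (fun p hp =>
      (Finset.mem_filter.1 hp).2.isMul)
    refine Nat.le_of_mul_le_mul_right (c := Fintype.card (P0 r)) ?_ hN
    calc 2 ^ (r / 3) * ((Finset.univ.filter fun p : Str r => QuoB p).image cls).card * Fintype.card (P0 r)
        = 2 ^ (r / 3) * (((Finset.univ.filter fun p : Str r => QuoB p).image cls).card * Fintype.card (P0 r)) := by
          ring
      _ ≤ 2 ^ (r / 3) * (L * (Finset.univ.filter fun p : Str r => QuoB p).card) := Nat.mul_le_mul_left _ h1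
      _ = L * (2 ^ (r / 3) * (Finset.univ.filter fun p : Str r => QuoB p).card) := by ring
      _ ≤ L * (2 * (Finset.univ.filter fun p : Str r => IsH p).card) := Nat.mul_le_mul_left _ hB
      _ ≤ L * (2 * (Fintype.card (P0 r) * Hr)) := Nat.mul_le_mul_left _ (Nat.mul_le_mul_left _ h2)
      _ = _ := by ring
  -- small fields
  have hSc : 2 ^ (r / 3) * ((Finset.univ.filter fun p : Str r => QuoS p).image cls).card ≤
      (8 * r ^ 4 + 2) * (2 * L * Hr) := by
    rcases (Finset.univ.filter fun p : Str r => QuoS p).eq_empty_or_nonempty with h0 | ⟨p, hp⟩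
    · rw [h0]
      simp
    · obtain ⟨K, hK, G, f, hp1, _⟩ := (Finset.mem_filter.1 hp).2
      have h1 := many_hyperfields (isMul_of_isQ hp1) hr
      calc 2 ^ (r / 3) * ((Finset.univ.filter fun p : Str r => QuoS p).image cls).card
          ≤ 2 ^ (r / 3) * (8 * r ^ 4 + 2) := Nat.mul_le_mul_left _ small_classes
        _ ≤ (2 * (L * Hr)) * (8 * r ^ 4 + 2) := Nat.mul_le_mul_right _ h1
        _ = _ := by ring
  have hsub : (Finset.univ.filter fun p : Str r => Quo p).image cls ⊆
      (Finset.univ.filter fun p : Str r => QuoB p).image cls ∪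
        (Finset.univ.filter fun p : Str r => QuoS p).image cls := by
    intro c hc
    obtain ⟨p, hp, rfl⟩ := Finset.mem_image.1 hc
    rcases quo_cases (Finset.mem_filter.1 hp).2 with h | h
    · exact Finset.mem_union_left _ (Finset.mem_image_of_mem _ (Finset.mem_filter.2 ⟨Finset.mem_univ _, h⟩))
    · exact Finset.mem_union_right _ (Finset.mem_image_of_mem _ (Finset.mem_filter.2 ⟨Finset.mem_univ _, h⟩))
  calc 2 ^ (r / 3) * ((Finset.univ.filter fun p : Str r => Quo p).image cls).card
      ≤ 2 ^ (r / 3) * (((Finset.univ.filter fun p : Str r => QuoB p).image cls).card +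
        ((Finset.univ.filter fun p : Str r => QuoS p).image cls).card) :=
        Nat.mul_le_mul_left _ ((Finset.card_le_card hsub).trans (Finset.card_union_le _ _))
    _ = 2 ^ (r / 3) * ((Finset.univ.filter fun p : Str r => QuoB p).image cls).card +
        2 ^ (r / 3) * ((Finset.univ.filter fun p : Str r => QuoS p).image cls).card := by ring
    _ ≤ 2 * L * Hr + (8 * r ^ 4 + 2) * (2 * L * Hr) := Nat.add_le_add hBc hSc
    _ = _ := by ring

theorem pow_bound {l : ℕ} (hl : 9 ≤ l) : 3 * (l + 3) ^ 2 ≤ 2 ^ l := by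
  induction l, hl using Nat.le_induction with
  | base => norm_num
  | succ l hl ih =>
    calc 3 * (l + 1 + 3) ^ 2 ≤ 2 * (3 * (l + 3) ^ 2) := by nlinarith
      _ ≤ 2 * 2 ^ l := Nat.mul_le_mul_left _ ih
      _ = 2 ^ (l + 1) := by ring

open Classical in
theorem ratio_bound (hr : 2 * r ^ 4 * 3 ^ (r / 12) ≤ 4 ^ (r / 12)) (h512 : 512 ≤ r) :
    2 ^ Nat.log 2 r * ((Finset.univ.filter fun p : Str r => Quo p).image cls).card ≤
      ((Finset.univ.filter fun p : Str r => IsH p).image cls).card := by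
  have h0 := main_ineq hr
  set l := Nat.log 2 r with hl
  have hl9 : 9 ≤ l := by
    rw [hl]
    exact Nat.le_log_of_pow_le (by norm_num) (by omega)
  have hlow : 2 ^ l ≤ r := Nat.pow_log_le_self 2 (by omega)
  have hup : r ≤ 2 ^ (l + 1) := (Nat.lt_pow_succ_log_self (by norm_num) r).le
  have h1 : (l + 3) ^ 2 ≤ r / 3 := by
    have := pow_bound hl9
    omega
  have h2 : 2 ^ l * (2 * r ^ l * (8 * r ^ 4 + 3)) ≤ 2 ^ (r / 3) := by
    calc 2 ^ l * (2 * r ^ l * (8 * r ^ 4 + 3)) ≤ 2 ^ l * (2 * (2 ^ (l + 1)) ^ l * (2 ^ 4 * (2 ^ (l + 1)) ^ 4)) := by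
          refine Nat.mul_le_mul_left _ (Nat.mul_le_mul (Nat.mul_le_mul_left _ (Nat.pow_le_pow_left hup _)) ?_)
          have h3 : r ^ 4 ≤ (2 ^ (l + 1)) ^ 4 := Nat.pow_le_pow_left hup 4
          have h4 : 1 ≤ r ^ 4 := Nat.one_le_pow _ _ (by omega)
          omega
      _ = 2 ^ ((l + 3) ^ 2) := by
          rw [← pow_mul, ← pow_mul]
          have : (l + 3) ^ 2 = l + (1 + (l + 1) * l + (4 + (l + 1) * 4)) := by ring
          rw [this, pow_add, pow_add, pow_add, pow_add, pow_one]
      _ ≤ 2 ^ (r / 3) := Nat.pow_le_pow_right (by norm_num) h1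
  have hpos : 0 < 2 * r ^ l * (8 * r ^ 4 + 3) := by
    have : 0 < r := by omega
    positivity
  refine le_of_mul_le_mul_left (a := 2 * r ^ l * (8 * r ^ 4 + 3)) ?_ ?_
  · calc 2 * r ^ l * (8 * r ^ 4 + 3) * (2 ^ l * ((Finset.univ.filter fun p : Str r => Quo p).image cls).card)
        = (2 ^ l * (2 * r ^ l * (8 * r ^ 4 + 3))) * ((Finset.univ.filter fun p : Str r => Quo p).image cls).card := by
          ring
      _ ≤ 2 ^ (r / 3) * ((Finset.univ.filter fun p : Str r => Quo p).image cls).card := Nat.mul_le_mul_right _ h2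
      _ ≤ _ := h0
  · exact hpos

end Pool.Agent.N206.HF
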