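import Mathlib
import Pool.Agent.N206.HF.Main

set_option autoImplicit false
set_option linter.unusedSectionVars false

namespace Pool.Agent.N206.HF

open Finset

open Classical in
/-- counting isomorphism classes -/
theorem ncard_classes {r : ℕ} (P : Str r → Prop) :
    Set.ncard {C : Set (Str r) | ∃ p : Str r, P p ∧ C = {q : Str r | P q ∧
      (∃ e : Fin (r+1) ≃ Fin (r+1), ∀ a b, e (p.1 a b) = q.1 (e a) (e b) ∧ e '' p.2 a b = q.2 (e a) (e b))}} =
      ((Finset.univ.filter fun p : Str r => P p).image cls).card := by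
  have h1 : {C : Set (Str r) | ∃ p : Str r, P p ∧ C = {q : Str r | P q ∧
      (∃ e : Fin (r+1) ≃ Fin (r+1), ∀ a b, e (p.1 a b) = q.1 (e a) (e b) ∧ e '' p.2 a b = q.2 (e a) (e b))}} =
      (fun c : Cl r => {q : Str r | P q ∧ cls q = c}) ''
        (((Finset.univ.filter fun p : Str r => P p).image cls : Finset (Cl r)) : Set (Cl r)) := by
    ext C
    constructor
    · rintro ⟨p, hp, rfl⟩
      refine ⟨cls p, Finset.mem_coe.2 (Finset.mem_image_of_mem _ (Finset.mem_filter.2 ⟨Finset.mem_univ _, hp⟩)), ?_⟩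
      ext q
      refine and_congr_right fun _ => ?_
      rw [eq_comm, cls_eq]
      rfl
    · rintro ⟨c, hc, rfl⟩
      obtain ⟨p, hp, rfl⟩ := Finset.mem_image.1 (Finset.mem_coe.1 hc)
      refine ⟨p, (Finset.mem_filter.1 hp).2, ?_⟩
      ext q
      refine and_congr_right fun _ => ?_
      rw [eq_comm, cls_eq]
      rfl
  rw [h1, Set.ncard_image_of_injOn, Set.ncard_coe_finset]
  intro c hc c' hc' hcc
  obtain ⟨p, hp, rfl⟩ := Finset.mem_image.1 (Finset.mem_coe.1 hc)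
  have h2 : p ∈ {q : Str r | P q ∧ cls q = cls p} := ⟨(Finset.mem_filter.1 hp).2, rfl⟩
  have hcc' : {q : Str r | P q ∧ cls q = cls p} = {q : Str r | P q ∧ cls q = c'} := hcc
  rw [hcc'] at h2
  exact h2.2

theorem eventually_pow : ∀ᶠ r : ℕ in Filter.atTop, 2 * r ^ 4 * 3 ^ (r / 12) ≤ 4 ^ (r / 12) := by
  have h1 : Filter.Tendsto (fun n : ℕ => (n : ℝ) ^ 4 * (3 / 4 : ℝ) ^ n) Filter.atTop (nhds 0) :=
    tendsto_pow_const_mul_const_pow_of_abs_lt_one 4 (by rw [abs_of_pos] <;> norm_num)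
  have h2 : ∀ᶠ n : ℕ in Filter.atTop, (n : ℝ) ^ 4 * (3 / 4 : ℝ) ^ n < 1 / (2 * 24 ^ 4) :=
    h1.eventually (gt_mem_nhds (by positivity))
  have h3 : ∀ᶠ n : ℕ in Filter.atTop, 2 * (24 * n) ^ 4 * 3 ^ n ≤ 4 ^ n := by
    filter_upwards [h2] with n hn
    have h4 : (2 : ℝ) * (24 * n) ^ 4 * 3 ^ n ≤ 4 ^ n := by
      rw [div_pow] at hn
      have h5 : (0 : ℝ) < 4 ^ n := by positivity
      have h6 : (n : ℝ) ^ 4 * (3 ^ n / 4 ^ n) * (2 * 24 ^ 4) < 1 := by
        rw [lt_div_iff₀ (by positivity)] at hn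
        exact hn
      have h7 : (2 : ℝ) * (24 * n) ^ 4 * 3 ^ n = ((n : ℝ) ^ 4 * (3 ^ n / 4 ^ n) * (2 * 24 ^ 4)) * 4 ^ n := by
        field_simp
      rw [h7]
      nlinarith
    exact_mod_cast h4
  have h4 : Filter.Tendsto (fun r : ℕ => r / 12) Filter.atTop Filter.atTop :=
    Nat.tendsto_div_const_atTop (by norm_num)
  filter_upwards [h4.eventually h3, Filter.eventually_ge_atTop 12] with r hr hr12
  refine le_trans ?_ hr
  refine Nat.mul_le_mul_right _ (Nat.mul_le_mul_left _ (Nat.pow_le_pow_left ?_ 4))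
  omega

end Pool.Agent.N206.HF
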